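import Pool.Agent.Lib.MP_154526_nt.Lin.T2.Spec
import Pool.Agent.Lib.MP_154526_nt.Lin.EQ0

/-!
# T2: SpecTri', SpecF1
-/

set_option autoImplicit false

namespace MP154526.Lin.T2

open Finset MP154526.Top MP154526.Top.Pass2

theorem specTri' : SpecTri' := by
  intro M _ _ L h
  refine lext fun l => ?_
  rw [LinearMap.zero_apply]
  refine specTri M (wt l) (fun l => L (e l)) ?_ l rfl
  intro i b hb _
  rw [← map_stf, ← st_e]
  exact h i (e b) (e_mem_V0 hb)

namespace F1M

theorem del_pow_word (l : List ℕ) : ∀ K, l.length + 1 ≤ K → (del ^ K) (e l) = 0 := by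
  induction l with
  | nil =>
    intro K hK
    obtain ⟨M, rfl⟩ : ∃ M, K = M + 1 := ⟨K - 1, by omega⟩
    rw [pow_succ, Module.End.mul_apply, del_nil, map_zero]
  | cons a l ih =>
    intro K hK
    obtain ⟨M, rfl⟩ : ∃ M, K = M + 1 := ⟨K - 1, by omega⟩
    rw [pow_succ, Module.End.mul_apply, del_cons]
    split_ifs
    · exact ih M (by simpa using hK)
    · exact map_zero _

theorem Yo_apply (K : ℕ) (Q : V) : Yo K Q = ∑ k ∈ range K, st (cc k) ((del ^ k) Q) := by
  unfold Yo
  rw [LinearMap.sum_apply]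
  rfl

theorem del_pow_le {K M : ℕ} (h : K ≤ M) {Q : V} (hQ : (del ^ K) Q = 0) : (del ^ M) Q = 0 := by
  obtain ⟨j, rfl⟩ : ∃ j, M = j + K := ⟨M - K, by omega⟩
  rw [pow_add, Module.End.mul_apply, hQ, map_zero]

theorem Yo_stable {K M : ℕ} (h : K ≤ M) {Q : V} (hQ : (del ^ K) Q = 0) : Yo M Q = Yo K Q := by
  rw [Yo_apply, Yo_apply]
  have hsub : range K ⊆ range M := by
    intro j hj
    rw [Finset.mem_range] at hj ⊢
    omega
  rw [← Finset.sum_subset hsub]
  intro j _ hj
  rw [Finset.mem_range] at hj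
  rw [del_pow_le (by omega) hQ, map_zero]

/-- the operator `Y` composed with `f`, on all of `V` -/
noncomputable def Lo (f : V →ₗ[ℚ] ℚ) : V →ₗ[ℚ] ℚ := lin1 fun l => f (Yo (l.length + 1) (e l))

theorem Lo_ev (f : V →ₗ[ℚ] ℚ) (Q : V) : ∃ K0, ∀ K, K0 ≤ K → Lo f Q = f (Yo K Q) := by
  induction Q using vind with
  | h0 => exact ⟨0, fun K _ => by simp⟩
  | hadd a b ha hb =>
    obtain ⟨K1, h1⟩ := ha
    obtain ⟨K2, h2⟩ := hb
    refine ⟨max K1 K2, fun K hK => ?_⟩
    rw [map_add, map_add, map_add, h1 K (le_trans (le_max_left _ _) hK),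
      h2 K (le_trans (le_max_right _ _) hK)]
  | hs r l =>
    refine ⟨l.length + 1, fun K hK => ?_⟩
    rw [map_smul, map_smul, map_smul, Yo_stable hK (del_pow_word l _ le_rfl)]
    congr 1
    unfold Lo
    rw [lin1_e]

theorem Lo_eq (f : V →ₗ[ℚ] ℚ) (K : ℕ) (Q : V) (hQ : (del ^ K) Q = 0) : Lo f Q = f (Yo K Q) := by
  obtain ⟨K0, h0⟩ := Lo_ev f Q
  rw [h0 (max K0 K) (le_max_left _ _), Yo_stable (le_max_right _ _) hQ]

theorem del_pow_V0 {b : V} (hb : b ∈ V0) (k : ℕ) (a : V) :
    (del ^ k) (st a b) = st ((del ^ k) a) b := by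
  induction k generalizing a with
  | zero => rfl
  | succ k ih =>
    rw [pow_succ, Module.End.mul_apply, del_st, mem_V0.1 hb, map_zero, add_zero, ih,
      Module.End.mul_apply]

theorem del_pow_rep (k i : ℕ) :
    (del ^ k) (e (List.replicate i 0)) = if k ≤ i then e (List.replicate (i - k) 0) else 0 := by
  induction k generalizing i with
  | zero => simp
  | succ k ih =>
    rw [pow_succ, Module.End.mul_apply]
    cases i with
    | zero => simp
    | succ i =>
      rw [List.replicate_succ, del_zero, ih]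
      simp only [Nat.add_le_add_iff_right, Nat.add_sub_add_right]

/-- `Y (y^i) = (i + 1) y^{i+1}` -/
theorem Yo_rep (hN : SpecNewt) (i K : ℕ) (hK : i + 1 ≤ K) :
    Yo K (e (List.replicate i 0)) = ((i : ℚ) + 1) • e (List.replicate (i + 1) 0) := by
  rw [Yo_stable hK (by rw [del_pow_rep, if_neg (by omega)]), Yo_apply, Finset.sum_range_succ']
  have h := hN i
  have e1 : ∀ k ∈ range i, st (cc (k + 1)) ((del ^ (k + 1)) (e (List.replicate i 0))) =
      - ((-1 : ℚ) ^ k • st (e [k + 1]) (e (List.replicate (i - (k + 1)) 0))) := by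
    intro k hk
    rw [Finset.mem_range] at hk
    rw [del_pow_rep, if_pos (by omega), cc, map_smul, LinearMap.smul_apply, pow_succ]
    simp
  rw [Finset.sum_congr rfl e1, Finset.sum_neg_distrib]
  show _ + st (cc 0) ((del ^ 0) (e (List.replicate i 0))) = _
  rw [pow_zero, Module.End.one_apply, cc, h]
  abel

theorem C_rep (i : ℕ) : C (e (List.replicate i 0)) = ((i : ℚ) + 1) • e (List.replicate (i + 1) 0) := by
  have hb : ∀ i, bw (List.replicate i 0) = List.replicate i true := bw_rep
  have key : ∀ (i : ℕ) (F : List Bool → V), shs F [true] (List.replicate i true) =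
      ((i : ℚ) + 1) • F (List.replicate (i + 1) true) := by
    intro i
    induction i with
    | zero => intro F; simp
    | succ i ih =>
      intro F
      rw [List.replicate_succ, shs_cons_cons, shs_nil_left, ih, ← List.replicate_succ,
        ← List.replicate_succ]
      push_cast
      module
  rw [C, sh_e, hb]
  show shs (fun w => e (dc w)) [true] (List.replicate i true) = _
  rw [key, ← hb, dc_bw]

end F1M

open F1M in
theorem specF1 (hN : SpecNewt) : SpecF1 := by
  intro f hf K Q hQ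
  rw [← Lo_eq f K Q hQ]
  have h0 : Lo f = 0 := by
    refine specTri' ℚ (Lo f) fun i b hb => ?_
    obtain ⟨K0, h0⟩ := Lo_ev f (st (e (List.replicate i 0)) b)
    rw [h0 (max K0 (i + 1)) (le_max_left _ _), Yo_apply]
    have e1 : ∀ k ∈ range (max K0 (i + 1)),
        st (cc k) ((del ^ k) (st (e (List.replicate i 0)) b)) =
        st (st (cc k) ((del ^ k) (e (List.replicate i 0)))) b := by
      intro k _
      rw [del_pow_V0 hb, st_assoc]
    rw [Finset.sum_congr rfl e1]
    have e2 : ∑ k ∈ range (max K0 (i + 1)),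
        st (st (cc k) ((del ^ k) (e (List.replicate i 0)))) b =
        st (Yo (max K0 (i + 1)) (e (List.replicate i 0))) b := by
      rw [Yo_apply, map_sum, LinearMap.sum_apply]
    have hne : ((i : ℚ) + 1) ≠ 0 := by positivity
    rw [e2, Yo_rep hN i _ (le_max_right _ _), ← C_rep, hf.r2 _ b hb, C, sh_assoc]
    exact hf.r1 _
  rw [h0]
  rfl

end MP154526.Lin.T2
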