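import Pool.Agent.Lib.MP_154526_nt.Lin.T2.FSpec
import Pool.Agent.Lib.MP_154526_nt.Lin.Harm3
import Pool.Agent.Lib.MP_154526_nt.Lin.Harm5

/-!
# T2: the function model
-/

set_option autoImplicit false

namespace MP154526.Lin.T2

open Finset MP154526.Top MP154526.Top.Pass2

theorem Fn_e (N : ℕ) (l : List ℕ) : Fn N (e l) = win l 0 N := by
  rw [Fn, lin1_e, win_zero]

theorem specFinj : SpecFinj := by
  intro v hv
  have hinj : Function.Injective (List.map (· + 1) : List ℕ → List ℕ) :=
    List.map_injective_iff.mpr fun a b h => by simpa using h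
  have h0 : v.mapDomain (List.map (· + 1)) = 0 := by
    apply hs_inj
    · intro w hw k hk
      have h1 := Finsupp.mapDomain_support hw
      rw [mem_image] at h1
      obtain ⟨l, _, rfl⟩ := h1
      rw [List.mem_map] at hk
      obtain ⟨a, _, rfl⟩ := hk
      omega
    · intro N
      rw [Finsupp.sum_mapDomain_index (by simp) (by intro b m n; ring)]
      have := hv N
      rw [Fn, lin1, Finsupp.linearCombination_apply] at this
      simpa [smul_eq_mul] using this
  have h1 : v.mapDomain (List.map (· + 1)) = (0 : V).mapDomain (List.map (· + 1)) := by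
    rw [h0, Finsupp.mapDomain_zero]
  exact Finsupp.mapDomain_injective hinj h1

/-- two bilinear maps agreeing on words agree -/
theorem bext {B B' : V →ₗ[ℚ] V →ₗ[ℚ] ℚ} (h : ∀ u v, B (e u) (e v) = B' (e u) (e v)) (a b : V) :
    B a b = B' a b := by
  have : B = B' := lext fun u => lext fun v => h u v
  rw [this]

theorem specFst : SpecFst := by
  intro N a b
  have := bext (B := (LinearMap.llcomp ℚ V V ℚ (Fn N)) ∘ₗ st)
    (B' := (LinearMap.mul ℚ ℚ).compl₁₂ (Fn N) (Fn N)) (fun u v => ?_) a b
  · simpa using this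
  · simp only [LinearMap.coe_comp, Function.comp_apply, LinearMap.llcomp_apply,
      LinearMap.compl₁₂_apply, LinearMap.mul_apply']
    rw [st_e, map_stf, Fn_e, Fn_e, ← win_stf]
    congr 1
    funext l
    exact Fn_e N l

theorem Fn_shs (N : ℕ) (c : List Bool) (hc : EndY c) (w : List ℕ) :
    Fn N (shs (fun w => e (dc w)) c (bw w)) =
      ∑ M ∈ range (N + 1), PowerSeries.coeff (N - M) (ser c) * win w 0 M := by
  rw [map_shs, shs_congr_endY _ (fun w => hb w N) _ _ hc (endY_bw w), hb_shs hc (endY_bw w)]
  · exact sum_congr rfl fun M _ => by rw [win_eq_hb]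
  · intro l hl _
    rw [Fn_e, win_eq_hb, bw_dc l hl]

theorem specFC : SpecFC := by
  intro N v
  induction v using vind with
  | h0 => simp
  | hadd a b ha hb => simp only [map_add, ha, hb, add_div, sum_add_distrib]
  | hs r w =>
    simp only [map_smul, smul_eq_mul]
    rw [C, sh_e]
    have h0 : bw [0] = [true] := rfl
    rw [h0, Fn_shs N _ (show EndY [true] from Or.inr ⟨[], rfl⟩) w, sum_range_succ, Nat.sub_self, ker_y, if_pos rfl,
      zero_mul, add_zero, mul_sum]
    refine sum_congr rfl fun M hM => ?_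
    have hM' := mem_range.mp hM
    rw [ker_y, if_neg (by omega), Fn_e, Nat.cast_sub (by omega)]
    ring

theorem specFZ : SpecFZ := by
  intro N v
  induction v using vind with
  | h0 => simp
  | hadd a b ha hb => simp only [map_add, ha, hb, add_div, sum_add_distrib]
  | hs r w =>
    simp only [map_smul, smul_eq_mul]
    rw [Z, sh_e]
    have h0 : bw [1] = [false, true] := rfl
    rw [h0, Fn_shs N _ (show EndY [false, true] from Or.inr ⟨[false], rfl⟩) w, sum_range_succ, Nat.sub_self, ker_z, if_pos rfl,
      zero_mul, add_zero, mul_sum]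
    refine sum_congr rfl fun M hM => ?_
    have hM' := mem_range.mp hM
    rw [ker_z, if_neg (by omega), Fn_e, Nat.cast_sub (by omega)]
    ring

theorem wn_eq_win (a : List ℕ) (l N : ℕ) : wn a l N = win a l N := by
  induction a generalizing N with
  | nil => simp [wn]
  | cons k a ih =>
    rw [wn]
    induction N with
    | zero => simp
    | succ N ihN =>
      rw [win_cons_succ]
      by_cases h : l ≤ N
      · rw [sum_Ioc_succ_top h, ihN, if_pos h, ih, Nat.add_sub_cancel]
        push_cast
        rfl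
      · rw [Ioc_eq_empty (by omega), sum_empty, if_neg h, win_of_le k a (by omega), add_zero]

theorem wL_e_fn (l N : ℕ) (a : List ℕ) : wL l N (e a) = win a l N := by
  rw [wL, lin1_e, wn_eq_win]

theorem yi_dlt {M : Type} [AddCommGroup M] [Module ℚ M] (f : List ℕ → M) (a : List ℕ) :
    yi f a = f (a ++ [0]) + lin1 f (dlt a) := by
  induction a generalizing f with
  | nil => simp [yi, dlt]
  | cons a l ih =>
    rw [yi, ih, dlt, map_add, map_sum]
    simp only [lin1_e, List.cons_append]
    have h1 : lin1 f ((Finsupp.lmapDomain ℚ ℚ (List.cons a)) (dlt l)) =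
        lin1 (fun l' => f (a :: l')) (dlt l) := by
      rw [lin1, lin1, Finsupp.lmapDomain_apply, Finsupp.linearCombination_mapDomain]
      rfl
    rw [h1]
    abel

theorem specCD : SpecCD := by
  intro a
  rw [C, sh_e]
  have h0 : bw [0] = [true] := rfl
  rw [h0, shs_y_bw]
  simp only [dc_bw]
  rw [yi_dlt]
  congr 1
  have : (lin1 e : V →ₗ[ℚ] V) = LinearMap.id := lext fun l => by simp
  rw [this]
  rfl

theorem specKey : SpecKey := by
  intro a l N hlN
  obtain ⟨K, rfl⟩ : ∃ K, N = l + (K + 1) := ⟨N - l - 1, by omega⟩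
  have hg := g2 a l (K + 1)
  rw [yi_dlt] at hg
  have hw : wL l (l + (K + 1)) (dlt a) = lin1 (fun a => win a l (l + (K + 1))) (dlt a) := by
    have : wL l (l + (K + 1)) = lin1 (fun a => win a l (l + (K + 1))) := lext fun b => by
      rw [wL_e_fn, lin1_e]
    rw [this]
  rw [hw]
  have hI : Ioo l (l + (K + 1)) = (range K).image (fun s => l + (s + 1)) := by
    ext m
    simp only [mem_Ioo, mem_image, mem_range]
    constructor
    · rintro ⟨h1, h2⟩
      exact ⟨m - l - 1, by omega, by omega⟩
    · rintro ⟨s, hs, rfl⟩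
      omega
  have hinj : ∀ s ∈ range K, ∀ t ∈ range K, l + (s + 1) = l + (t + 1) → s = t := by
    intro s _ t _ h; omega
  have h1 : fwd a l (K + 1) = win a l l / ((K : ℚ) + 1) +
      ∑ M ∈ Ioo l (l + (K + 1)), wn a l M / (((l + (K + 1) : ℕ) : ℚ) - M) := by
    rw [fwd, sum_range_succ', hI, sum_image hinj, add_comm]
    congr 1
    · push_cast; simp
    · refine sum_congr rfl fun s _ => ?_
      rw [wn_eq_win]
      push_cast
      congr 1
      ring
  have h2 : bwd a l (K + 1) = win a (l + (K + 1)) (l + (K + 1)) / ((K : ℚ) + 1) +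
      ∑ M ∈ Ioo l (l + (K + 1)), wn a M (l + (K + 1)) / ((M : ℚ) - l) := by
    rw [bwd, sum_range_succ, hI, sum_image hinj, add_comm]
    congr 1
    · rw [show l + 1 + K = l + (K + 1) by omega]
    · refine sum_congr rfl fun s _ => ?_
      rw [wn_eq_win, show l + (s + 1) = l + 1 + s by omega]
      push_cast
      congr 1
      ring
  have h3 : win a l l = win a (l + (K + 1)) (l + (K + 1)) := by
    cases a with
    | nil => simp
    | cons a b => rw [win_self, win_self]
  rw [h3] at h1
  linear_combination -hg - h1 + h2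

theorem dsum_cv (f g : List ℕ → ℚ) (a : List ℕ) : dsum (fun u v => f u * g v) a = cv f g a := by
  induction a generalizing f with
  | nil => rfl
  | cons a l ih => rw [dsum, cv_cons, ih]

theorem dsum_map_fn {M N : Type} [AddCommMonoid M] [AddCommMonoid N] (L : M →+ N)
    (F : List ℕ → List ℕ → M) (a : List ℕ) :
    L (dsum F a) = dsum (fun u v => L (F u v)) a := by
  induction a generalizing F with
  | nil => rfl
  | cons a l ih => rw [dsum, dsum, map_add, ih]

theorem inv_of_S1 (hS : SpecS1) (f : V →ₗ[ℚ] ℚ) (h1 : f (e []) = 1)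
    (hf : ∀ a b, f (st a b) = f a * f b) :
    cv (fun l => f (e l)) (fun l => f (S l)) = dl := by
  funext a
  rw [← dsum_cv]
  have h := congrArg f (hS a)
  have h2 := dsum_map_fn f.toAddMonoidHom (fun u v => st (e u) (S v)) a
  simp only [LinearMap.toAddMonoidHom_coe] at h2
  rw [h2] at h
  simp only [hf] at h
  rw [h]
  cases a with
  | nil => simpa [dl] using h1
  | cons a l => simp [dl]

theorem wL_st (l N : ℕ) (a b : V) : wL l N (st a b) = wL l N a * wL l N b := by
  have := bext (B := (LinearMap.llcomp ℚ V V ℚ (wL l N)) ∘ₗ st)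
    (B' := (LinearMap.mul ℚ ℚ).compl₁₂ (wL l N) (wL l N)) (fun u v => ?_) a b
  · simpa using this
  · simp only [LinearMap.coe_comp, Function.comp_apply, LinearMap.llcomp_apply,
      LinearMap.compl₁₂_apply, LinearMap.mul_apply']
    rw [st_e, map_stf, wL_e_fn, wL_e_fn, ← win_stf]
    congr 1
    funext c
    exact wL_e_fn l N c

theorem specWD (hS : SpecS1) : SpecWD := by
  intro a l N hlN
  obtain ⟨K, rfl⟩ : ∃ K, N = l + K := ⟨N - l, by omega⟩
  have h := inv_of_S1 hS (Fn l) (by rw [Fn_e]; simp) (specFst l)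
  simp only [Fn_e] at h
  have h2 := congrFun (cv_win_up l K _ h) a
  rw [wn_eq_win, dsum_cv]
  simp only [Fn_e]
  exact h2.symm

theorem specWS (hS : SpecS1) : SpecWS := by
  intro a l N hlN
  obtain ⟨K, rfl⟩ : ∃ K, N = l + K := ⟨N - l, by omega⟩
  have h := inv_of_S1 hS (Fn (l + K)) (by rw [Fn_e]; simp) (specFst (l + K))
  have h' := inv_of_S1 hS (wL l (l + K)) (by rw [wL_e_fn]; simp) (wL_st l (l + K))
  simp only [Fn_e] at h
  simp only [wL_e_fn] at h'
  have h2 := congrFun (cv_win_down l K _ _ h h') a
  rw [dsum_cv]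
  simp only [Fn_e]
  exact h2.symm

end MP154526.Lin.T2
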