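import Pool.Agent.Lib.MP_154526_nt.Lin.T2.Spec
import Pool.Agent.Lib.MP_154526_nt.Lin.Ext

/-!
# T2, module LINK: from `RR` to `FR`
-/

set_option autoImplicit false

namespace MP154526.Lin.T2

open Finset MP154526.Top MP154526.Top.Pass2

namespace Link

variable {n : ℕ} {ψ : List Bool → ℚ}

/-- the functional on words -/
def fn (n : ℕ) (ψ : List Bool → ℚ) (l : List ℕ) : ℚ := if wt l = n then ψ (bw l) else 0

theorem wt_dc (w : List Bool) (hw : EndY w) : wt (dc w) = w.length := by
  rw [← Pass2.bw_length, bw_dc w hw]

theorem shs_val (n : ℕ) (ψ : List Bool → ℚ) (u v : List ℕ) :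
    lin1 (fn n ψ) (sh (e u) (e v)) = if wt u + wt v = n then shs ψ (bw u) (bw v) else 0 := by
  rw [sh_e, map_shs]
  simp only [lin1_e]
  by_cases h : wt u + wt v = n
  · rw [if_pos h]
    refine shs_congr_endY _ _ _ _ (endY_bw u) (endY_bw v) fun l hl hlen => ?_
    rw [Pass2.bw_length, Pass2.bw_length] at hlen
    rw [fn, wt_dc l hl, bw_dc l hl, if_pos (by omega)]
  · rw [if_neg h, ← shs_zero (M := ℚ) (bw u) (bw v)]
    refine shs_congr_endY _ _ _ _ (endY_bw u) (endY_bw v) fun l hl hlen => ?_
    rw [Pass2.bw_length, Pass2.bw_length] at hlen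
    rw [fn, wt_dc l hl, if_neg (by omega)]

theorem stf_val (n : ℕ) (ψ : List Bool → ℚ) (u v : List ℕ) :
    lin1 (fn n ψ) (st (e u) (e v)) =
      if wt u + wt v = n then stf (fun l => ψ (bw l)) u v else 0 := by
  rw [st_e, map_stf]
  simp only [lin1_e]
  by_cases h : wt u + wt v = n
  · rw [if_pos h]
    refine CloM.stf_congr _ _ _ _ fun l hl => ?_
    rw [fn, if_pos (by omega)]
  · rw [if_neg h]
    refine stf_zero _ _ _ fun l hl => ?_
    rw [fn, if_neg (by omega)]

end Link

/-- LINK -/
theorem specLink : SpecLink := by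
  intro n ψ h
  show FR (lin1 (Link.fn n ψ))
  refine ⟨fun w => ?_, fun w b hb => ?_⟩
  · induction w using vind with
    | h0 => simp
    | hadd a a' ha ha' => rw [map_add, map_add, ha, ha', add_zero]
    | hs r l =>
      rw [map_smul, map_smul, C, Link.shs_val]
      have h1 : wt [0] = 1 := rfl
      rw [h1]
      split_ifs with h2
      · have := h.reg 1 (bw l) le_rfl (endY_bw l) (by rw [Pass2.bw_length, h2])
        have h3 : bw [0] = List.replicate 1 true := rfl
        rw [h3, this, smul_zero]
      · rw [smul_zero]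
  · refine V0_ind (p := fun b => lin1 (Link.fn n ψ) (st w b) = lin1 (Link.fn n ψ) (sh w b))
      ?_ ?_ ?_ b hb
    · simp
    · intro a a' ha ha'
      rw [map_add, map_add, map_add, map_add, ha, ha']
    · intro r v hv
      rw [map_smul, map_smul, map_smul, map_smul]
      congr 1
      induction w using vind with
      | h0 => simp
      | hadd a a' ha ha' =>
        rw [map_add, map_add, LinearMap.add_apply, LinearMap.add_apply, map_add, map_add, ha, ha']
      | hs s u =>
        rw [map_smul, map_smul, LinearMap.smul_apply, LinearMap.smul_apply, map_smul, map_smul,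
          Link.stf_val, Link.shs_val]
        split_ifs with h2
        · rw [h.rds u v hv h2]
        · rfl

end MP154526.Lin.T2
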