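import Pool.Agent.Lib.MP_154526_nt.Lin.T2.Newt
import Pool.Agent.Lib.MP_154526_nt.Lin.Harm3

/-!
# T2: nonpure words are stable, `SpecNP`
-/

set_option autoImplicit false

namespace MP154526.Lin.T2

open Finset MP154526.Top MP154526.Top.Pass2

namespace NPM

section
variable {M : Type} [AddCommMonoid M]

theorem np_cons {a : ℕ} {l : List ℕ} (h : NP l) : NP (a :: l) := by
  obtain ⟨b, hb, hb0⟩ := h
  exact ⟨b, List.mem_cons_of_mem _ hb, hb0⟩

theorem np_head {a : ℕ} {l : List ℕ} (h : a ≠ 0) : NP (a :: l) := ⟨a, List.mem_cons_self, h⟩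

theorem np_tail {a : ℕ} {l : List ℕ} (h : NP (a :: l)) : a ≠ 0 ∨ NP l := by
  obtain ⟨b, hb, hb0⟩ := h
  rcases List.mem_cons.1 hb with rfl | hb
  · exact Or.inl hb0
  · exact Or.inr ⟨b, hb, hb0⟩

theorem stf_all (P : AddSubmonoid M) (g : List ℕ → M) (u v : List ℕ) (h : ∀ l, g l ∈ P) :
    stf g u v ∈ P := by
  induction u, v using stf_induct generalizing g with
  | h0 W => simpa using h W
  | h1 a σ => simpa using h (a :: σ)
  | h2 a σ c W ha hb hc =>
    rw [stf_cons_cons]
    exact P.add_mem (P.add_mem (ha _ fun l => h _) (hb _ fun l => h _)) (hc _ fun l => h _)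

theorem stf_np (P : AddSubmonoid M) (g : List ℕ → M) (u v : List ℕ) (huv : NP u ∨ NP v)
    (h : ∀ l, NP l → g l ∈ P) : stf g u v ∈ P := by
  induction u, v using stf_induct generalizing g with
  | h0 W =>
    rw [stf_nil_left]
    rcases huv with hn | hn
    · obtain ⟨b, hb, _⟩ := hn
      simp at hb
    · exact h _ hn
  | h1 a σ =>
    rw [stf_nil_right]
    rcases huv with hn | hn
    · exact h _ hn
    · obtain ⟨b, hb, _⟩ := hn
      simp at hb
  | h2 a σ c W ha hb hc =>
    rw [stf_cons_cons]
    refine P.add_mem (P.add_mem ?_ ?_) ?_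
    · by_cases ha0 : a = 0
      · refine ha _ ?_ fun l hl => h _ (np_cons hl)
        rcases huv with hn | hn
        · exact Or.inl ((np_tail hn).resolve_left (by simpa using ha0))
        · exact Or.inr hn
      · exact stf_all P _ _ _ fun l => h _ (np_head ha0)
    · by_cases hc0 : c = 0
      · refine hb _ ?_ fun l hl => h _ (np_cons hl)
        rcases huv with hn | hn
        · exact Or.inl hn
        · exact Or.inr ((np_tail hn).resolve_left (by simpa using hc0))
      · exact stf_all P _ _ _ fun l => h _ (np_head hc0)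
    · exact stf_all P _ _ _ fun l => h _ (np_head (by omega))

theorem yi_all (P : AddSubmonoid M) (g : List ℕ → M) (a : List ℕ) (h : ∀ l, g l ∈ P) :
    yi g a ∈ P := by
  induction a generalizing g with
  | nil => exact h _
  | cons b l ih =>
    rw [yi]
    exact P.add_mem (P.sum_mem fun i _ => h _) (ih _ fun l => h _)

theorem yi_np (P : AddSubmonoid M) (g : List ℕ → M) (a : List ℕ) (ha : NP a)
    (h : ∀ l, NP l → g l ∈ P) : yi g a ∈ P := by
  induction a generalizing g with
  | nil =>
    obtain ⟨b, hb, _⟩ := ha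
    simp at hb
  | cons b l ih =>
    rw [yi]
    refine P.add_mem (P.sum_mem fun i hi => h _ ?_) ?_
    · rcases np_tail ha with hb | hl
      · by_cases hi0 : i = 0
        · subst hi0
          exact np_cons (np_head (by simpa using hb))
        · exact np_head hi0
      · exact np_cons (np_cons hl)
    · by_cases hb : b = 0
      · exact ih _ ((np_tail ha).resolve_left (by simpa using hb)) fun l hl => h _ (np_cons hl)
      · exact yi_all P _ _ fun l => h _ (np_head hb)

end

/-- the span of the nonpure words -/
noncomputable def W : Submodule ℚ V := Submodule.span ℚ {x | ∃ l, NP l ∧ x = e l}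

theorem e_mem {l : List ℕ} (h : NP l) : e l ∈ W := Submodule.subset_span ⟨l, h, rfl⟩

theorem st_mem (w : V) {x : V} (hx : x ∈ W) : st w x ∈ W := by
  induction w using vind with
  | h0 => simp
  | hadd a b ha hb =>
    rw [map_add, LinearMap.add_apply]
    exact W.add_mem ha hb
  | hs r u =>
    rw [map_smul, LinearMap.smul_apply]
    refine W.smul_mem _ ?_
    have h1 : W ≤ W.comap (st (e u)) := by
      show Submodule.span ℚ _ ≤ _
      rw [Submodule.span_le]
      rintro _ ⟨l, hl, rfl⟩
      show st (e u) (e l) ∈ W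
      rw [st_e]
      exact stf_np W.toAddSubmonoid _ _ _ (Or.inr hl) fun l hl => e_mem hl
    exact h1 hx

theorem S_mem : ∀ (n : ℕ) (a : List ℕ), a.length ≤ n → NP a → S a ∈ W := by
  intro n
  induction n with
  | zero =>
    intro a ha hn
    have ha0 : a = [] := List.length_eq_zero_iff.1 (by omega)
    subst ha0
    obtain ⟨b, hb, _⟩ := hn
    simp at hb
  | succ n ih =>
    intro a ha hn
    cases a with
    | nil =>
      obtain ⟨b, hb, _⟩ := hn
      simp at hb
    | cons b l =>
      rw [S_cons, Phi_eq]
      refine W.neg_mem (dsum_mem W.toAddSubmonoid _ _ fun p q hpq => ?_)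
      have h1 : NP (b :: p) ∨ NP q := by
        obtain ⟨c, hc, hc0⟩ := hn
        rw [← hpq, ← List.cons_append, List.mem_append] at hc
        rcases hc with hc | hc
        · exact Or.inl ⟨c, hc, hc0⟩
        · exact Or.inr ⟨c, hc, hc0⟩
      rcases h1 with h1 | h1
      · rw [st_comm]
        exact st_mem _ (e_mem h1)
      · refine st_mem _ (ih q ?_ h1)
        have h2 : p.length + q.length = l.length := by rw [← hpq, List.length_append]
        simp only [List.length_cons] at ha
        omega

end NPM

/-- NP -/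
theorem specNP : SpecNP where
  s a ha := NPM.S_mem _ a le_rfl ha
  c a ha := by
    have h0 : bw [0] = [true] := rfl
    rw [C, sh_e, h0, shs_y_bw]
    simp only [dc_bw]
    exact NPM.yi_np NPM.W.toAddSubmonoid _ _ ha fun l hl => NPM.e_mem hl

end MP154526.Lin.T2
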