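import Pool.Agent.Lib.MP_154526_nt.Lin.T2.Spec
import Pool.Agent.Lib.MP_154526_nt.Lin.HarmInj

/-!
# T2: the function model, exact statements
-/

set_option autoImplicit false

namespace MP154526.Lin.T2

open Finset MP154526.Top MP154526.Top.Pass2

/-- the harmonic sums of an element of `ℌ¹` -/
noncomputable def Fn (N : ℕ) : V →ₗ[ℚ] ℚ := lin1 fun l => hs (l.map (· + 1)) N

/-- the window sum over `N ≥ m_1 > ⋯ > m_r > l` -/
noncomputable def wn : List ℕ → ℕ → ℕ → ℚ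
  | [], _, _ => 1
  | k :: a, l, N => ∑ m ∈ Ioc l N, wn a l (m - 1) / (m : ℚ) ^ (k + 1)

/-- the window sums, linear in the word -/
noncomputable def wL (l N : ℕ) : V →ₗ[ℚ] ℚ := lin1 fun a => wn a l N

/-- the explicit form of `y ⧢ a - a y` -/
noncomputable def dlt : List ℕ → V
  | [] => 0
  | a :: l => (∑ i ∈ range (a + 1), e (i :: (a - i) :: l)) +
      Finsupp.lmapDomain ℚ ℚ (List.cons a) (dlt l)

/-- FINJ (from `hs_inj`) -/
def SpecFinj : Prop := ∀ v : V, (∀ N, Fn N v = 0) → v = 0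

/-- FST -/
def SpecFst : Prop := ∀ (N : ℕ) (a b : V), Fn N (st a b) = Fn N a * Fn N b

/-- FC -/
def SpecFC : Prop := ∀ (N : ℕ) (v : V), Fn N (C v) = ∑ l ∈ range N, Fn l v / ((N : ℚ) - l)

/-- FZ -/
def SpecFZ : Prop := ∀ (N : ℕ) (v : V), Fn N (Z v) = ∑ l ∈ range N, Fn l v / ((N : ℚ) - l) ^ 2

/-- CD: `y ⧢ a = a y + δ(a)` -/
def SpecCD : Prop := ∀ a : List ℕ, C (e a) = e (a ++ [0]) + dlt a

/-- WD: windows in terms of the two end points -/
def SpecWD : Prop :=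
  ∀ (a : List ℕ) (l N : ℕ), l ≤ N → wn a l N = dsum (fun u v => Fn N (e u) * Fn l (S v)) a

/-- WS: the inverse windows -/
def SpecWS : Prop :=
  ∀ (a : List ℕ) (l N : ℕ), l ≤ N → wL l N (S a) = dsum (fun u v => Fn l (e u) * Fn N (S v)) a

/-- KEY (G2) -/
def SpecKey : Prop :=
  ∀ (a : List ℕ) (l N : ℕ), l < N →
    ∑ M ∈ Ioo l N, wn a l M / ((N : ℚ) - M) - ∑ M ∈ Ioo l N, wn a M N / ((M : ℚ) - l) =
      wL l N (dlt a)

end MP154526.Lin.T2
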