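import Pool.Agent.Lib.MP_154526_nt.Lin.T2.Spec
import Pool.Agent.Lib.MP_154526_nt.Lin.T2.FSpec

section
/-!
# T2: basic facts on `dsum`
-/
set_option autoImplicit false

namespace MP154526.Lin.T2

open Finset MP154526.Top MP154526.Top.Pass2

section
variable {M : Type} [AddCommMonoid M]

@[simp] theorem dsum_nil (F : List ℕ → List ℕ → M) : dsum F [] = F [] [] := rfl

theorem dsum_cons (F : List ℕ → List ℕ → M) (a : ℕ) (l : List ℕ) :
    dsum F (a :: l) = F [] (a :: l) + dsum (fun u v => F (a :: u) v) l := rfl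

/-- only the splittings matter -/
theorem dsum_congr {F G : List ℕ → List ℕ → M} (a : List ℕ)
    (h : ∀ u v, u ++ v = a → F u v = G u v) : dsum F a = dsum G a := by
  induction a generalizing F G with
  | nil => exact h [] [] rfl
  | cons b l ih =>
    rw [dsum_cons, dsum_cons, h [] (b :: l) rfl]
    congr 1
    exact ih fun u v huv => h _ _ (by rw [List.cons_append, huv])

theorem dsum_add (F G : List ℕ → List ℕ → M) (a : List ℕ) :
    dsum (fun u v => F u v + G u v) a = dsum F a + dsum G a := by
  induction a generalizing F G with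
  | nil => rfl
  | cons b l ih =>
    rw [dsum_cons, dsum_cons, dsum_cons, ih]
    abel

theorem dsum_zero (a : List ℕ) : dsum (fun _ _ => (0 : M)) a = 0 := by
  induction a with
  | nil => rfl
  | cons b l ih => rw [dsum_cons, ih, add_zero]

theorem dsum_eq_zero {F : List ℕ → List ℕ → M} (a : List ℕ)
    (h : ∀ u v, u ++ v = a → F u v = 0) : dsum F a = 0 := by
  rw [dsum_congr a h, dsum_zero]

theorem dsum_map {N : Type} [AddCommMonoid N] (f : M →+ N) (F : List ℕ → List ℕ → M)
    (a : List ℕ) : f (dsum F a) = dsum (fun u v => f (F u v)) a := by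
  induction a generalizing F with
  | nil => rfl
  | cons b l ih => rw [dsum_cons, dsum_cons, map_add, ih]

theorem dsum_sum {ι : Type} (s : Finset ι) (F : ι → List ℕ → List ℕ → M) (a : List ℕ) :
    dsum (fun u v => ∑ i ∈ s, F i u v) a = ∑ i ∈ s, dsum (F i) a := by
  induction a generalizing F with
  | nil => rfl
  | cons b l ih =>
    rw [dsum_cons, ih, ← Finset.sum_add_distrib]
    exact Finset.sum_congr rfl fun i _ => (dsum_cons _ _ _).symm

/-- the last letter -/
theorem dsum_snoc (F : List ℕ → List ℕ → M) (l : List ℕ) (b : ℕ) :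
    dsum F (l ++ [b]) = dsum (fun u v => F u (v ++ [b])) l + F (l ++ [b]) [] := by
  induction l generalizing F with
  | nil => rfl
  | cons a l ih =>
    rw [List.cons_append, dsum_cons, ih, dsum_cons, ← add_assoc]
    rfl

theorem dsum_mem (P : AddSubmonoid M) (F : List ℕ → List ℕ → M) (a : List ℕ)
    (h : ∀ u v, u ++ v = a → F u v ∈ P) : dsum F a ∈ P := by
  induction a generalizing F with
  | nil => exact h [] [] rfl
  | cons b l ih =>
    rw [dsum_cons]
    exact P.add_mem (h _ _ rfl) (ih _ fun u v huv => h _ _ (by rw [List.cons_append, huv]))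

end

section
variable {M : Type} [AddCommGroup M]

theorem dsum_neg (F : List ℕ → List ℕ → M) (a : List ℕ) :
    dsum (fun u v => - F u v) a = - dsum F a := by
  have := dsum_map (negAddMonoidHom : M →+ M) F a
  simpa using this.symm

theorem dsum_sub (F G : List ℕ → List ℕ → M) (a : List ℕ) :
    dsum (fun u v => F u v - G u v) a = dsum F a - dsum G a := by
  simp only [sub_eq_add_neg]
  rw [dsum_add, dsum_neg]

end

section
variable {M N : Type} [AddCommGroup M] [Module ℚ M] [AddCommGroup N] [Module ℚ N]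

theorem dsum_lin (f : M →ₗ[ℚ] N) (F : List ℕ → List ℕ → M) (a : List ℕ) :
    f (dsum F a) = dsum (fun u v => f (F u v)) a := dsum_map f.toAddMonoidHom F a

theorem dsum_smul (r : ℚ) (F : List ℕ → List ℕ → M) (a : List ℕ) :
    dsum (fun u v => r • F u v) a = r • dsum F a := by
  have := dsum_lin (LinearMap.lsmul ℚ M r) F a
  simpa using this.symm

end

@[simp] theorem S_nil : S [] = e [] := rfl

theorem S_cons (b : ℕ) (l : List ℕ) : S (b :: l) = - Phi l fun p => e (b :: p) := rfl

theorem Phi_eq (l : List ℕ) (G : List ℕ → V) :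
    Phi l G = dsum (fun p q => st (G p) (S q)) l := by
  induction l generalizing G with
  | nil =>
    show G [] = st (G []) (e [])
    rw [st_one]
  | cons b l ih =>
    show - st (G []) (Phi l fun p => e (b :: p)) + Phi l (fun p => G (b :: p)) = _
    rw [dsum_cons, ← ih, S_cons, map_neg]

/-- S1 -/
theorem specS1 : SpecS1 := by
  intro a
  cases a with
  | nil => simp
  | cons b l =>
    rw [dsum_cons, S_cons, one_st, ← Phi_eq l fun p => e (b :: p)]
    simp

/-- CO -/
theorem specCO : SpecCO := by
  intro M _ G a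
  induction a generalizing G with
  | nil => rfl
  | cons b l ih =>
    rw [dsum_cons, dsum_cons, dsum_cons]
    simp only [dsum_cons, dsum_nil]
    rw [dsum_add, ih, add_assoc]

end MP154526.Lin.T2
end

section
/-!
# T2: the depth induction, `SpecFin`
-/
set_option autoImplicit false

namespace MP154526.Lin.T2

open Finset MP154526.Top MP154526.Top.Pass2

/-- only words of length at most `|u| + |v|` matter -/
theorem stf_congr_len {M : Type} [AddCommMonoid M] (f g : List ℕ → M) (u v : List ℕ)
    (h : ∀ l, l.length ≤ u.length + v.length → f l = g l) : stf f u v = stf g u v := by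
  induction u, v using stf_induct generalizing f g with
  | h0 W => simpa using h W (by simp)
  | h1 a σ => simpa using h (a :: σ) (by simp)
  | h2 a σ c W ha hb hc =>
    rw [stf_cons_cons, stf_cons_cons]
    congr 1
    · congr 1
      · refine ha _ _ fun l hl => h _ ?_
        simp only [List.length_cons] at hl ⊢
        omega
      · refine hb _ _ fun l hl => h _ ?_
        simp only [List.length_cons] at hl ⊢
        omega
    · refine hc _ _ fun l hl => h _ ?_
      simp only [List.length_cons] at hl ⊢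
      omega

/-- words in the product of two words of `ℌ⁰` are words of `ℌ⁰` -/
theorem stf_congr_len_ad {M : Type} [AddCommMonoid M] (f g : List ℕ → M) (u v : List ℕ)
    (hu : Ad u) (hv : Ad v)
    (h : ∀ l, Ad l → l.length ≤ u.length + v.length → f l = g l) : stf f u v = stf g u v := by
  cases u with
  | nil => simpa using h v hv (by simp)
  | cons a u =>
    cases v with
    | nil => simpa using h (a :: u) hu (by simp)
    | cons c v =>
      have ha : 1 ≤ a := hu a (by simp)
      have hc : 1 ≤ c := hv c (by simp)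
      have hcons : ∀ (b : ℕ) (l : List ℕ), 1 ≤ b → Ad (b :: l) := by
        intro b l hb x hx
        simp only [List.head?_cons, Option.mem_def, Option.some.injEq] at hx
        omega
      rw [stf_cons_cons, stf_cons_cons]
      congr 1
      · congr 1
        · refine stf_congr_len _ _ _ _ fun l hl => h _ (hcons _ _ ha) ?_
          simp only [List.length_cons] at hl ⊢
          omega
        · refine stf_congr_len _ _ _ _ fun l hl => h _ (hcons _ _ hc) ?_
          simp only [List.length_cons] at hl ⊢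
          omega
      · refine stf_congr_len _ _ _ _ fun l hl => h _ (hcons _ _ (by omega)) ?_
        simp only [List.length_cons] at hl ⊢
        omega

/-- `y * y^j b` -/
theorem stf_y_lead (g : List ℕ → ℚ) (j : ℕ) (b : List ℕ) (hb : Ad b)
    (h : ∀ (i : ℕ) (c : List ℕ), Ad c → i ≤ j → i + c.length ≤ j + b.length + 1 →
      g (List.replicate i 0 ++ c) = 0) :
    stf g [0] (List.replicate j 0 ++ b) = ((j : ℚ) + 1) * g (List.replicate (j + 1) 0 ++ b) := by
  induction j generalizing g with
  | zero =>
    cases b with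
    | nil =>
      show stf g [0] [] = _
      rw [stf_nil_right]
      simp
    | cons c b =>
      have hc : 1 ≤ c := hb c (by simp)
      have hcons : ∀ (b : ℕ) (l : List ℕ), 1 ≤ b → Ad (b :: l) := by
        intro b l hb x hx
        simp only [List.head?_cons, Option.mem_def, Option.some.injEq] at hx
        omega
      show stf g [0] (c :: b) = _
      rw [stf_cons_cons, stf_nil_left, stf_nil_left]
      have h1 : stf (fun l => g (c :: l)) [0] b = stf (fun _ => (0 : ℚ)) [0] b := by
        refine stf_congr_len _ _ _ _ fun l hl => ?_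
        have := h 0 (c :: l) (hcons _ _ hc) le_rfl (by
          simp only [List.length_cons, List.length_nil] at hl ⊢
          omega)
        simpa using this
      have h2 : g ((0 + c + 1) :: b) = 0 := by
        have := h 0 ((0 + c + 1) :: b) (hcons _ _ (by omega)) le_rfl (by
          simp only [List.length_cons]
          omega)
        simpa using this
      rw [h1, stf_fun_zero, h2]
      simp
  | succ j ih =>
    rw [List.replicate_succ, List.cons_append, stf_cons_cons, stf_nil_left, stf_nil_left]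
    rw [ih (fun l => g (0 :: l)) (fun i c hc hi hl => by
      have := h (i + 1) c hc (by omega) (by omega)
      rw [List.replicate_succ, List.cons_append] at this
      exact this)]
    have h2 : g ((0 + 0 + 1) :: (List.replicate j 0 ++ b)) = 0 := by
      have := h 0 ((0 + 0 + 1) :: (List.replicate j 0 ++ b)) (by
        intro x hx
        simp only [List.head?_cons, Option.mem_def, Option.some.injEq] at hx
        omega) (by omega) (by
        simp only [List.length_cons, List.length_append, List.length_replicate]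
        omega)
      simpa using this
    rw [h2]
    simp only [List.replicate_succ, List.cons_append]
    push_cast
    ring

/-- every word is `y^j b`, `b ∈ ℌ⁰` -/
theorem exists_rep (l : List ℕ) : ∃ (j : ℕ) (b : List ℕ), Ad b ∧ l = List.replicate j 0 ++ b := by
  induction l with
  | nil => exact ⟨0, [], by intro a ha; simp at ha, rfl⟩
  | cons a l ih =>
    cases a with
    | zero =>
      obtain ⟨j, b, hb, rfl⟩ := ih
      exact ⟨j + 1, b, hb, by rw [List.replicate_succ, List.cons_append]⟩
    | succ a =>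
      refine ⟨0, (a + 1) :: l, ?_, rfl⟩
      intro x hx
      simp only [List.head?_cons, Option.mem_def, Option.some.injEq] at hx
      omega

theorem ad_prefix {u v a : List ℕ} (h : u ++ v = a) (ha : Ad a) : Ad u := by
  cases u with
  | nil => intro x hx; simp at hx
  | cons b u =>
    intro x hx
    refine ha x ?_
    rw [← h]
    simpa using hx

theorem dsum_last {M : Type} [AddCommMonoid M] (F : List ℕ → List ℕ → M) (a : List ℕ)
    (h : ∀ u v, u ++ v = a → v ≠ [] → F u v = 0) : dsum F a = F a [] := by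
  induction a generalizing F with
  | nil => rfl
  | cons b l ih =>
    rw [dsum_cons, h [] (b :: l) rfl (by simp), zero_add]
    exact ih _ fun u v huv hv => h _ _ (by rw [List.cons_append, huv]) hv

theorem dsum_comm {M : Type} [AddCommMonoid M] (F : List ℕ → List ℕ → List ℕ → List ℕ → M)
    (a b : List ℕ) :
    dsum (fun u v => dsum (fun p q => F u v p q) b) a =
      dsum (fun p q => dsum (fun u v => F u v p q) a) b := by
  induction a generalizing F with
  | nil => rfl
  | cons c a ih =>
    rw [dsum_cons, ih, ← dsum_add]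
    rfl

section
variable (L : V →ₗ[ℚ] V →ₗ[ℚ] ℚ)

/-- `Λ(x, a) = ∑_{a = u v} L(x * S v, u)` as a bilinear form -/
noncomputable def Lam : V →ₗ[ℚ] V →ₗ[ℚ] ℚ :=
  LinearMap.flip (lin1 fun a => dsum (fun u v => (L.flip (e u)) ∘ₗ (st.flip (S v))) a)

theorem Lam_e (x : V) (a : List ℕ) :
    Lam L x (e a) = dsum (fun u v => L (st x (S v)) (e u)) a := by
  rw [Lam, LinearMap.flip_apply, lin1_e]
  exact dsum_lin (LinearMap.applyₗ x) _ a

/-- `L(x, b) = ∑_{b = p q} Λ(x * q, p)` -/
theorem Lam_inv (hS2 : SpecS2) (x : V) (b : List ℕ) :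
    L x (e b) = dsum (fun p q => Lam L (st x (e q)) (e p)) b := by
  have h1 : dsum (fun p q => Lam L (st x (e q)) (e p)) b =
      dsum (fun p q => dsum (fun u v => L (st (st x (e q)) (S v)) (e u)) p) b := by
    refine dsum_congr _ fun p q _ => ?_
    rw [Lam_e]
  rw [h1, specCO ℚ (fun u v q => L (st (st x (e q)) (S v)) (e u)) b]
  have h2 : ∀ u v, dsum (fun p q => L (st (st x (e q)) (S p)) (e u)) v =
      L (st x (dsum (fun p q => st (S p) (e q)) v)) (e u) := by
    intro u v
    have := dsum_lin ((L.flip (e u)) ∘ₗ (st x)) (fun p q => st (S p) (e q)) v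
    simp only [LinearMap.comp_apply, LinearMap.flip_apply] at this
    rw [this]
    refine dsum_congr _ fun p q _ => ?_
    rw [st_assoc, st_comm (e q) (S p)]
  simp only [h2]
  rw [dsum_last]
  · rw [hS2 [], if_pos rfl, st_one]
  · intro u v _ hv
    rw [hS2 v, if_neg hv]
    simp

/-- the Hopf identity -/
theorem hopf_id (hDM : SpecDM) (hS2 : SpecS2) (x a : List ℕ) :
    dsum (fun u v => L (S v) (st (e x) (e u))) a =
      dsum (fun x1 x2 => Lam L (e x2) (st (e x1) (e a))) x := by
  have h1 : ∀ u v, L (S v) (st (e x) (e u)) =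
      dsum (fun x1 x2 => dsum (fun u1 u2 =>
        Lam L (st (st (e x2) (e u2)) (S v)) (st (e x1) (e u1))) u) x := by
    intro u v
    rw [st_e, map_stf]
    have : (fun l => L (S v) (e l)) = fun l => dsum (fun p q => Lam L (st (S v) (e q)) (e p)) l :=
      funext fun l => Lam_inv L hS2 _ _
    rw [this, hDM]
    refine dsum_congr _ fun x1 x2 _ => dsum_congr _ fun u1 u2 _ => ?_
    rw [st_e x1 u1, map_stf]
    congr 1
    funext p
    rw [st_comm (st (e x2) (e u2)) (S v)]
    have := map_stf ((Lam L).flip (e p) ∘ₗ st (S v)) e x2 u2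
    simp only [LinearMap.comp_apply, LinearMap.flip_apply] at this
    rw [st_e x2 u2, this]
  simp only [h1]
  rw [dsum_comm]
  refine dsum_congr _ fun x1 x2 _ => ?_
  rw [specCO ℚ (fun u1 u2 v => Lam L (st (st (e x2) (e u2)) (S v)) (st (e x1) (e u1))) a]
  have h2 : ∀ u1 w, dsum (fun u2 v => Lam L (st (st (e x2) (e u2)) (S v)) (st (e x1) (e u1))) w =
      Lam L (st (e x2) (dsum (fun u2 v => st (e u2) (S v)) w)) (st (e x1) (e u1)) := by
    intro u1 w
    have := dsum_lin (((Lam L).flip (st (e x1) (e u1))) ∘ₗ (st (e x2)))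
      (fun p q => st (e p) (S q)) w
    simp only [LinearMap.comp_apply, LinearMap.flip_apply] at this
    rw [this]
    refine dsum_congr _ fun p q _ => ?_
    rw [st_assoc]
  simp only [h2]
  rw [dsum_last]
  · rw [specS1 [], if_pos rfl, st_one]
  · intro u v _ hv
    rw [specS1 v, if_neg hv]
    simp

/-- `Ψ_k(c, x, a) = ∑_{a = u v} L(c * ∂^k (x * S v), u)` -/
noncomputable def Psi (k : ℕ) (c x : V) (a : List ℕ) : ℚ :=
  dsum (fun u v => L (st c ((del ^ k) (st x (S v)))) (e u)) a

theorem Psi_zero (c x : V) (a : List ℕ) : Psi L 0 c x a = Lam L (st c x) (e a) := by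
  rw [Psi, Lam_e]
  refine dsum_congr _ fun u v _ => ?_
  rw [pow_zero, Module.End.one_apply, st_assoc]

theorem Psi_succ (hDS : SpecDS) (k : ℕ) (c x : V) (a : List ℕ) :
    Psi L (k + 1) c x a = Psi L k c (del x) a -
      dsum (fun u v => L (st c ((del ^ k) (st x (Sr v)))) (e u)) a := by
  rw [Psi, Psi, ← dsum_sub]
  refine dsum_congr _ fun u v _ => ?_
  rw [pow_succ, Module.End.mul_apply, del_st, hDS]
  simp only [map_add, map_neg, LinearMap.add_apply, LinearMap.neg_apply]
  ring

/-- the induction hypothesis -/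
def PD (D : ℕ) : Prop :=
  ∀ x a : List ℕ, Ad a → x.length + a.length ≤ D → Lam L (e x) (e a) = 0

theorem Psi_van (hDS : SpecDS) (D : ℕ) (hP : PD L D) (k : ℕ) :
    ∀ (m : ℕ) (x a : List ℕ), Ad a → x.length + a.length + 1 ≤ D + k →
      Psi L k (e [m]) (e x) a = 0 := by
  induction k with
  | zero =>
    intro m x a ha hD
    rw [Psi_zero, st_e]
    have := map_stf ((Lam L).flip (e a)) e [m] x
    simp only [LinearMap.flip_apply] at this
    rw [this]
    rw [stf_congr_len _ (fun _ => (0 : ℚ)) _ _ fun l hl => hP l a ha (by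
      simp only [List.length_cons, List.length_nil] at hl
      omega)]
    exact stf_fun_zero _ _
  | succ k ih =>
    intro m x a ha hD
    rw [Psi_succ L hDS]
    have h1 : Psi L k (e [m]) (del (e x)) a = 0 := by
      cases x with
      | nil =>
        rw [del_nil, Psi]
        refine dsum_eq_zero _ fun u v _ => ?_
        simp
      | cons b x =>
        rw [del_cons]
        by_cases hb : b = 0
        · rw [if_pos hb]
          refine ih m x a ha ?_
          simp only [List.length_cons] at hD
          omega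
        · rw [if_neg hb, Psi]
          refine dsum_eq_zero _ fun u v _ => ?_
          simp
    rw [h1, zero_sub, neg_eq_zero]
    rcases List.eq_nil_or_concat a with rfl | ⟨a', b, rfl⟩
    · rw [dsum_nil]
      simp [Sr]
    · rw [List.concat_eq_append] at *
      rw [dsum_snoc]
      have h2 : Sr [] = 0 := by simp [Sr]
      rw [h2]
      simp only [map_zero, LinearMap.zero_apply, add_zero]
      by_cases hb : b = 0
      · have h3 : ∀ v : List ℕ, Sr (v ++ [b]) = S v := by
          intro v
          simp [Sr, hb]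
        simp only [h3]
        refine ih m x a' (ad_prefix rfl ha) ?_
        simp only [List.length_append, List.length_cons, List.length_nil] at hD
        omega
      · refine dsum_eq_zero _ fun u v _ => ?_
        have h3 : Sr (v ++ [b]) = 0 := by
          simp [Sr, hb]
        rw [h3]
        simp

theorem del_pow_ex (w : V) : ∃ K, (del ^ K) w = 0 := by
  induction w using vind with
  | h0 => exact ⟨0, by simp⟩
  | hadd a b ha hb =>
    obtain ⟨K, hK⟩ := ha
    obtain ⟨K', hK'⟩ := hb
    refine ⟨K + K', ?_⟩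
    rw [map_add, pow_add, Module.End.mul_apply, Module.End.mul_apply, hK', map_zero, add_zero,
      ← Module.End.mul_apply, ← pow_add, add_comm, pow_add, Module.End.mul_apply, hK, map_zero]
  | hs r l =>
    have : ∃ K, (del ^ K) (e l) = 0 := by
      induction l with
      | nil => exact ⟨1, by simp⟩
      | cons a l ih =>
        obtain ⟨K, hK⟩ := ih
        refine ⟨K + 1, ?_⟩
        rw [pow_succ, Module.End.mul_apply, del_cons]
        split_ifs
        · exact hK
        · exact map_zero _
    obtain ⟨K, hK⟩ := this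
    exact ⟨K, by rw [map_smul, hK, smul_zero]⟩

theorem del_pow_mono {w : V} {K K' : ℕ} (h : K ≤ K') (hK : (del ^ K) w = 0) :
    (del ^ K') w = 0 := by
  obtain ⟨d, rfl⟩ := Nat.exists_eq_add_of_le h
  rw [add_comm, pow_add, Module.End.mul_apply, hK, map_zero]

theorem del_pow_unif (F : List ℕ → List ℕ → V) (a : List ℕ) :
    ∃ K, ∀ u v, u ++ v = a → (del ^ K) (F u v) = 0 := by
  induction a generalizing F with
  | nil =>
    obtain ⟨K, hK⟩ := del_pow_ex (F [] [])
    refine ⟨K, fun u v huv => ?_⟩
    obtain ⟨rfl, rfl⟩ := List.append_eq_nil_iff.1 huv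
    exact hK
  | cons c l ih =>
    obtain ⟨K, hK⟩ := del_pow_ex (F [] (c :: l))
    obtain ⟨K', hK'⟩ := ih fun u v => F (c :: u) v
    refine ⟨max K K', fun u v huv => ?_⟩
    cases u with
    | nil =>
      rw [List.nil_append] at huv
      rw [huv]
      exact del_pow_mono (le_max_left _ _) hK
    | cons b u =>
      rw [List.cons_append, List.cons.injEq] at huv
      obtain ⟨rfl, huv⟩ := huv
      exact del_pow_mono (le_max_right _ _) (hK' u v huv)

theorem step_b (hDS : SpecDS)
    (hY : ∀ (K : ℕ) (w b : V), b ∈ V0 → (del ^ K) w = 0 →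
      L (st (e [0]) w) b = - ∑ k ∈ range K, L (st (cc (k + 1)) ((del ^ (k + 1)) w)) b)
    (D : ℕ) (hP : PD L D) (l a : List ℕ) (ha : Ad a) (hD : l.length + a.length ≤ D) :
    Lam L (st (e [0]) (e l)) (e a) = 0 := by
  obtain ⟨K, hK⟩ := del_pow_unif (fun _ v => st (e l) (S v)) a
  rw [Lam_e]
  have h1 : dsum (fun u v => L (st (st (e [0]) (e l)) (S v)) (e u)) a =
      dsum (fun u v => - ∑ k ∈ range K,
        L (st (cc (k + 1)) ((del ^ (k + 1)) (st (e l) (S v)))) (e u)) a := by
    refine dsum_congr _ fun u v huv => ?_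
    rw [st_assoc]
    exact hY K _ _ (e_mem_V0 (ad_prefix huv ha)) (hK u v huv)
  rw [h1, dsum_neg, dsum_sum, neg_eq_zero]
  refine Finset.sum_eq_zero fun k _ => ?_
  have h2 := Psi_van L hDS D hP (k + 1) (k + 1) l a ha (by omega)
  have h3 : (fun u v => L (st (cc (k + 1)) ((del ^ (k + 1)) (st (e l) (S v)))) (e u)) =
      fun u v => (-1 : ℚ) ^ (k + 1) • L (st (e [k + 1]) ((del ^ (k + 1)) (st (e l) (S v)))) (e u) := by
    funext u v
    show L (st ((-1 : ℚ) ^ (k + 1) • e [k + 1]) _) _ = _
    rw [map_smul, LinearMap.smul_apply, map_smul, LinearMap.smul_apply]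
  rw [h3, dsum_smul]
  rw [Psi] at h2
  rw [h2, smul_zero]

theorem dsum_first {M : Type} [AddCommMonoid M] (F : List ℕ → List ℕ → M) (a : List ℕ)
    (h : ∀ u v, u ++ v = a → u ≠ [] → F u v = 0) : dsum F a = F [] a := by
  cases a with
  | nil => rfl
  | cons b l =>
    rw [dsum_cons, dsum_eq_zero _ fun u v huv =>
      h (b :: u) v (by rw [List.cons_append, huv]) (by simp), add_zero]

theorem step_a (hDM : SpecDM) (hS2 : SpecS2) (h1 : ∀ w : V, L w (e []) = 0)
    (hd : ∀ (x : V) (a : List ℕ), x ∈ V0 → Ad a → a ≠ [] →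
      dsum (fun u v => L (st x (S v)) (e u) + L (S v) (st x (e u))) a = 0)
    (D m : ℕ)
    (hI : ∀ x a : List ℕ, x.length < m → Ad a → x.length + a.length ≤ D → Lam L (e x) (e a) = 0)
    (x a : List ℕ) (hx : Ad x) (ha : Ad a) (hm : x.length = m) (hD : x.length + a.length ≤ D) :
    Lam L (e x) (e a) = 0 := by
  by_cases ha0 : a = []
  · subst ha0
    rw [Lam_e, dsum_nil, h1]
  · have h2 := hd (e x) a (e_mem_V0 hx) ha ha0
    rw [dsum_add, ← Lam_e, hopf_id L hDM hS2, dsum_first, one_st] at h2
    · linarith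
    · intro u v huv hu
      rw [st_e, map_stf]
      rw [stf_congr_len_ad _ (fun _ => (0 : ℚ)) _ _ (ad_prefix huv hx) ha fun l hl hlen => ?_]
      · exact stf_fun_zero _ _
      · have h3 : u.length + v.length = x.length := by rw [← huv, List.length_append]
        have h4 : 0 < u.length := List.length_pos_iff.2 hu
        exact hI v l (by omega) hl (by omega)

theorem Lam_zero (hDM : SpecDM) (hS2 : SpecS2) (hDS : SpecDS) (h1 : ∀ w : V, L w (e []) = 0)
    (hd : ∀ (x : V) (a : List ℕ), x ∈ V0 → Ad a → a ≠ [] →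
      dsum (fun u v => L (st x (S v)) (e u) + L (S v) (st x (e u))) a = 0)
    (hY : ∀ (K : ℕ) (w b : V), b ∈ V0 → (del ^ K) w = 0 →
      L (st (e [0]) w) b = - ∑ k ∈ range K, L (st (cc (k + 1)) ((del ^ (k + 1)) w)) b)
    (D : ℕ) : PD L D := by
  induction D with
  | zero =>
    intro x a ha hD
    have ha0 : a = [] := List.length_eq_zero_iff.1 (by omega)
    subst ha0
    rw [Lam_e, dsum_nil, h1]
  | succ D ihD =>
    have key : ∀ m : ℕ, ∀ x a : List ℕ, x.length < m → Ad a → x.length + a.length ≤ D + 1 →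
        Lam L (e x) (e a) = 0 := by
      intro m
      induction m with
      | zero =>
        intro x a hx
        omega
      | succ m ihm =>
        have hQ : ∀ (j i : ℕ) (c a : List ℕ), i ≤ j → Ad c → Ad a → i + c.length < m + 1 →
            i + c.length + a.length ≤ D + 1 → Lam L (e (List.replicate i 0 ++ c)) (e a) = 0 := by
          intro j
          induction j with
          | zero =>
            intro i c a hi hc ha hm hD
            have hi0 : i = 0 := by omega
            subst hi0
            show Lam L (e c) (e a) = 0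
            rcases lt_or_ge c.length m with hlt | hge
            · exact ihm c a hlt ha (by omega)
            · exact step_a L hDM hS2 h1 hd (D + 1) m ihm c a hc ha (by omega) (by omega)
          | succ j ihj =>
            intro i c a hi hc ha hm hD
            rcases Nat.lt_or_ge i (j + 1) with hlt | hge
            · exact ihj i c a (by omega) hc ha hm hD
            · have hij : i = j + 1 := by omega
              subst hij
              have hb := step_b L hDS hY D ihD (List.replicate j 0 ++ c) a ha (by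
                simp only [List.length_append, List.length_replicate]
                omega)
              rw [st_e] at hb
              have h5 := map_stf ((Lam L).flip (e a)) e [0] (List.replicate j 0 ++ c)
              simp only [LinearMap.flip_apply] at h5
              rw [h5, stf_y_lead (fun l => Lam L (e l) (e a)) j c hc
                (fun i c' hc' hi' hl' => ihj i c' a hi' hc' ha (by omega) (by omega))] at hb
              rcases mul_eq_zero.1 hb with h6 | h6
              · exfalso
                have : (0 : ℚ) < (j : ℚ) + 1 := by positivity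
                linarith
              · exact h6
        intro x a hx ha hD
        obtain ⟨j, b, hb, rfl⟩ := exists_rep x
        simp only [List.length_append, List.length_replicate] at hx hD
        exact hQ j j b a le_rfl hb ha hx hD
    intro x a ha hD
    exact key (x.length + 1) x a (by omega) ha hD

end

/-- FIN -/
theorem specFin (hDM : SpecDM) (hS2 : SpecS2) (hDS : SpecDS) : SpecFin := by
  intro L h1 hd hY w b hb
  have h2 : ∀ (n : ℕ) (a : List ℕ) (y : V), a.length ≤ n → Ad a → L y (e a) = 0 := by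
    intro n
    induction n with
    | zero =>
      intro a y ha _
      have ha0 : a = [] := List.length_eq_zero_iff.1 (by omega)
      subst ha0
      exact h1 y
    | succ n ih =>
      intro a y ha had
      have h3 : Lam L y (e a) = 0 := by
        have := lzero (f := (Lam L).flip (e a)) (fun x => by
          rw [LinearMap.flip_apply]
          exact Lam_zero L hDM hS2 hDS h1 hd hY _ x a had le_rfl) y
        simpa only [LinearMap.flip_apply] using this
      rw [Lam_e, dsum_last, S_nil, st_one] at h3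
      · exact h3
      · intro u v huv hv
        refine ih u _ ?_ (ad_prefix huv had)
        have h4 : u.length + v.length = a.length := by rw [← huv, List.length_append]
        have h5 : 0 < v.length := List.length_pos_iff.2 hv
        omega
  refine V0_ind (p := fun b => L w b = 0) ?_ ?_ ?_ b hb
  · exact map_zero _
  · intro a b ha hb
    rw [map_add, ha, hb, add_zero]
  · intro r l hl
    rw [map_smul, h2 l.length l w le_rfl hl, smul_zero]

end MP154526.Lin.T2
end

section
/-!
# T2: SpecDS and SpecDV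
-/
set_option autoImplicit false

namespace MP154526.Lin.T2

open Finset MP154526.Top MP154526.Top.Pass2

theorem Sr_nil : Sr [] = 0 := by simp [Sr]

theorem Sr_snoc (l : List ℕ) (b : ℕ) : Sr (l ++ [b]) = if b = 0 then S l else 0 := by
  unfold Sr
  simp

/-- the sum over the splittings with `Sr` -/
theorem dsum_Sr (l : List ℕ) (b : ℕ) (G : List ℕ → V) :
    dsum (fun p q => st (G p) (Sr q)) (l ++ [b]) =
      if b = 0 then dsum (fun p q => st (G p) (S q)) l else 0 := by
  rw [dsum_snoc, Sr_nil, map_zero, add_zero]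
  by_cases hb : b = 0
  · rw [if_pos hb]
    refine dsum_congr l fun u v _ => ?_
    rw [Sr_snoc, if_pos hb]
  · rw [if_neg hb]
    refine dsum_eq_zero l fun u v _ => ?_
    rw [Sr_snoc, if_neg hb, map_zero]

/-- DS -/
theorem specDS : SpecDS := by
  have key : ∀ n : ℕ, ∀ v : List ℕ, v.length ≤ n → del (S v) = - Sr v := by
    intro n
    induction n with
    | zero =>
      intro v hv
      have : v = [] := List.eq_nil_of_length_eq_zero (by omega)
      subst this
      rw [S_nil, del_nil, Sr_nil, neg_zero]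
    | succ n ih =>
      intro v hv
      rcases v with _ | ⟨b, l⟩
      · rw [S_nil, del_nil, Sr_nil, neg_zero]
      · have hl : l.length ≤ n := by
          simp only [List.length_cons] at hv
          omega
        rw [S_cons, Phi_eq, map_neg, dsum_lin]
        have h1 : dsum (fun p q => del (st (e (b :: p)) (S q))) l =
            dsum (fun p q => st (del (e (b :: p))) (S q)) l -
              dsum (fun p q => st (e (b :: p)) (Sr q)) l := by
          rw [← dsum_sub]
          refine dsum_congr l fun p q hpq => ?_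
          have hq : q.length ≤ n := by
            have := congrArg List.length hpq
            rw [List.length_append] at this
            omega
          rw [del_st, ih q hq, map_neg, sub_eq_add_neg]
        rw [h1]
        have h2 : dsum (fun p q => st (del (e (b :: p))) (S q)) l =
            if b = 0 then (if l = [] then e [] else 0) else 0 := by
          by_cases hb : b = 0
          · subst hb
            rw [if_pos rfl, ← specS1 l]
            exact dsum_congr l fun p q _ => by rw [del_zero]
          · rw [if_neg hb]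
            refine dsum_eq_zero l fun p q _ => ?_
            rw [del_cons, if_neg hb, map_zero, LinearMap.zero_apply]
        rw [h2]
        rcases List.eq_nil_or_concat l with rfl | ⟨l', c, rfl⟩
        · rw [dsum_nil, Sr_nil, map_zero, sub_zero]
          have : ([b] : List ℕ) = [] ++ [b] := rfl
          rw [this, Sr_snoc]
          simp
        · rw [List.concat_eq_append, dsum_Sr l' c fun p => e (b :: p)]
          have : b :: (l' ++ [c]) = (b :: l') ++ [c] := rfl
          rw [this, Sr_snoc, S_cons, Phi_eq]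
          have h3 : l' ++ [c] ≠ [] := by simp
          rw [if_neg h3]
          by_cases hc : c = 0
          · simp [hc]
          · simp [hc]
  intro v
  exact key v.length v le_rfl

/-- DV -/
theorem specDV : SpecDV := by
  have key : ∀ n i k : ℕ, i + k ≤ n → ∀ a : List ℕ, NP a →
      dsum (fun u v => st ((del ^ i) (e u)) ((del ^ k) (S v))) a = 0 := by
    intro n
    induction n with
    | zero =>
      intro i k hik a ha
      obtain rfl : i = 0 := by omega
      obtain rfl : k = 0 := by omega
      have h0 : a ≠ [] := by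
        rintro rfl
        obtain ⟨x, hx, _⟩ := ha
        simp at hx
      have := specS1 a
      rw [if_neg h0] at this
      simpa using this
    | succ n ih =>
      intro i k hik a ha
      rcases i with _ | i
      · rcases k with _ | k
        · exact ih 0 0 (by omega) a ha
        · rcases List.eq_nil_or_concat a with rfl | ⟨l, b, rfl⟩
          · obtain ⟨x, hx, _⟩ := ha
            simp at hx
          · rw [List.concat_eq_append] at ha ⊢
            rw [dsum_snoc]
            have h1 : (del ^ (k + 1)) (S []) = 0 := by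
              rw [pow_succ, Module.End.mul_apply, S_nil, del_nil, map_zero]
            rw [h1, map_zero, add_zero]
            by_cases hb : b = 0
            · subst hb
              have hl : NP l := by
                obtain ⟨x, hx, hx0⟩ := ha
                rw [List.mem_append] at hx
                rcases hx with hx | hx
                · exact ⟨x, hx, hx0⟩
                · rw [List.mem_singleton] at hx
                  exact absurd hx hx0
              have h2 := ih 0 k (by omega) l hl
              rw [← neg_eq_zero, ← dsum_neg] at h2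
              rw [← h2]
              refine dsum_congr l fun u v _ => ?_
              rw [pow_succ, Module.End.mul_apply, specDS, Sr_snoc, if_pos rfl, map_neg, map_neg]
            · refine dsum_eq_zero l fun u v _ => ?_
              rw [pow_succ, Module.End.mul_apply, specDS, Sr_snoc, if_neg hb, neg_zero, map_zero,
                map_zero]
      · rcases a with _ | ⟨b, l⟩
        · obtain ⟨x, hx, _⟩ := ha
          simp at hx
        · rw [dsum_cons]
          have h1 : (del ^ (i + 1)) (e []) = 0 := by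
            rw [pow_succ, Module.End.mul_apply, del_nil, map_zero]
          rw [h1, map_zero, LinearMap.zero_apply, zero_add]
          by_cases hb : b = 0
          · subst hb
            have hl : NP l := by
              obtain ⟨x, hx, hx0⟩ := ha
              rw [List.mem_cons] at hx
              rcases hx with hx | hx
              · exact absurd hx hx0
              · exact ⟨x, hx, hx0⟩
            rw [← ih i k (by omega) l hl]
            refine dsum_congr l fun u v _ => ?_
            rw [pow_succ, Module.End.mul_apply, del_zero]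
          · refine dsum_eq_zero l fun u v _ => ?_
            rw [pow_succ, Module.End.mul_apply, del_cons, if_neg hb, map_zero, map_zero,
              LinearMap.zero_apply]
  intro i k a ha
  exact key (i + k) i k le_rfl a ha

end MP154526.Lin.T2
end

section
/-!
# T2, module HOPF: DM (the deconcatenation is multiplicative for the stuffle) and S2 (the antipode)
-/
set_option autoImplicit false

namespace MP154526.Lin.T2

open Finset MP154526.Top MP154526.Top.Pass2

/-- DM -/
theorem specDM : SpecDM := by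
  intro M _ G u v
  induction u, v using stf_induct generalizing G with
  | h0 W => simp
  | h1 a σ => simp
  | h2 a σ c W ha hb hc =>
    have e1 := ha (fun u v => G (a :: u) v)
    have e2 := hb (fun u v => G (c :: u) v)
    have e3 := hc (fun u v => G ((a + c + 1) :: u) v)
    rw [dsum_cons] at e2
    simp only [dsum_cons, stf_nil_left, stf_nil_right, dsum_add] at e1 e2
    rw [stf_cons_cons]
    simp only [dsum_cons G, stf_add]
    rw [e1, e2, e3, dsum_cons]
    simp only [dsum_cons, stf_nil_left, stf_nil_right, stf_cons_cons, dsum_add]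
    abel

/-- right unit -/
theorem dsum_right_unit {M : Type} [AddCommMonoid M] (F : List ℕ → M) (a : List ℕ) :
    dsum (fun u v => if v = [] then F u else 0) a = F a := by
  induction a generalizing F with
  | nil => simp
  | cons b l ih =>
    rw [dsum_cons, ih (fun u => F (b :: u))]
    simp

/-- left unit -/
theorem dsum_left_unit {M : Type} [AddCommMonoid M] (F : List ℕ → M) (a : List ℕ) :
    dsum (fun u v => if u = [] then F v else 0) a = F a := by
  cases a with
  | nil => simp
  | cons b l =>
    rw [dsum_cons]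
    simp [dsum_zero]

/-- S2 -/
theorem specS2 : SpecS2 := by
  intro a
  have key : ∀ (n : ℕ) (a : List ℕ), a.length ≤ n →
      dsum (fun u v => st (S u) (e v)) a = if a = [] then e [] else 0 := by
    intro n
    induction n with
    | zero =>
      intro a ha
      have : a = [] := List.length_eq_zero_iff.1 (by omega)
      subst this
      simp
    | succ n ih =>
      intro a ha
      rcases List.eq_nil_or_concat a with rfl | ⟨l, b, rfl⟩
      · simp
      rw [List.concat_eq_append] at ha ⊢
      rw [List.length_append, List.length_cons, List.length_nil] at ha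
      -- `T * S = S`
      have h1 : ∀ a, dsum (fun u v => st (dsum (fun p q => st (S p) (e q)) u) (S v)) a = S a := by
        intro a
        have e1 : ∀ u v, st (dsum (fun p q => st (S p) (e q)) u) (S v) =
            dsum (fun p q => st (st (S p) (e q)) (S v)) u := by
          intro u v
          exact dsum_lin (st.flip (S v)) (fun p q => st (S p) (e q)) u
        simp only [e1]
        rw [specCO V (fun p q v => st (st (S p) (e q)) (S v)) a]
        have e2 : ∀ u v, dsum (fun p q => st (st (S u) (e p)) (S q)) v =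
            if v = [] then S u else 0 := by
          intro u v
          simp only [st_assoc]
          rw [← dsum_lin (st (S u)) (fun p q => st (e p) (S q)) v, specS1]
          by_cases hv : v = []
          · simp [hv]
          · simp [hv]
        simp only [e2]
        exact dsum_right_unit _ _
      -- `ε * S = S`
      have h2 : ∀ a, dsum (fun u v => st (if u = [] then e [] else 0) (S v)) a = S a := by
        intro a
        have e1 : ∀ u v : List ℕ,
            st (if u = [] then e [] else 0) (S v) = if u = [] then S v else 0 := by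
          intro u v
          by_cases hu : u = []
          · simp [hu]
          · simp [hu]
        simp only [e1]
        exact dsum_left_unit _ _
      have h3 := (h1 (l ++ [b])).trans (h2 (l ++ [b])).symm
      rw [dsum_snoc (fun u v => st (dsum (fun p q => st (S p) (e q)) u) (S v)),
        dsum_snoc (fun u v => st (if u = [] then e [] else 0) (S v))] at h3
      have h4 : dsum (fun u v => st (dsum (fun p q => st (S p) (e q)) u) (S (v ++ [b]))) l =
          dsum (fun u v => st (if u = [] then e [] else 0) (S (v ++ [b]))) l := by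
        refine dsum_congr _ fun u v huv => ?_
        rw [ih u (by
          have := congrArg List.length huv
          rw [List.length_append] at this
          omega)]
      rw [h4, S_nil, st_one, st_one] at h3
      exact add_left_cancel h3
  exact key _ a le_rfl

end MP154526.Lin.T2
end

section
/-!
# T2: the exact word identity `SpecId`, from the function model
-/
set_option autoImplicit false

namespace MP154526.Lin.T2

open Finset MP154526.Top MP154526.Top.Pass2

theorem wL_e (l N : ℕ) (a : List ℕ) : wL l N (e a) = wn a l N := by simp [wL]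

theorem ell_e (X : V →ₗ[ℚ] V) (a : List ℕ) :
    ell X (e a) = dsum (fun u v => st (e u) (X (S v))) a := by simp [ell]

theorem ry_e (a : List ℕ) : ry (e a) = e (a ++ [0]) := by simp [ry]

theorem wn_self (a : List ℕ) (ha : a ≠ []) (l : ℕ) : wn a l l = 0 := by
  cases a with
  | nil => exact absurd rfl ha
  | cons k a => simp [wn]

/-- exchange of the order of summation -/
theorem swap_sum (N : ℕ) (f : ℕ → ℕ → ℚ) :
    ∑ l ∈ range N, ∑ M ∈ Ioo l N, f l M = ∑ M ∈ range N, ∑ l ∈ range M, f l M := by
  refine Finset.sum_comm' fun l M => ?_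
  simp only [mem_range, mem_Ioo]
  constructor
  · rintro ⟨h1, h2, h3⟩
    exact ⟨h2, h3⟩
  · rintro ⟨h1, h2⟩
    exact ⟨by omega, h1, h2⟩

/-! ### the functionals `ℓ_X` -/

theorem Fn_ell (hst : SpecFst) (hwd : SpecWD) (N : ℕ) (X : V →ₗ[ℚ] V) (c : ℕ → ℚ)
    (hX : ∀ v, Fn N (X v) = ∑ l ∈ range N, c l * Fn l v) (x : V) :
    Fn N (ell X x) = ∑ l ∈ range N, c l * wL l N x := by
  have h1 : Fn N ∘ₗ ell X = ∑ l ∈ range N, c l • wL l N := by
    refine lext fun a => ?_
    rw [LinearMap.comp_apply, ell_e, dsum_lin, LinearMap.sum_apply]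
    simp only [LinearMap.smul_apply, wL_e, smul_eq_mul]
    have e1 : dsum (fun u v => Fn N (st (e u) (X (S v)))) a =
        dsum (fun u v => ∑ l ∈ range N, c l • (Fn N (e u) * Fn l (S v))) a := by
      refine dsum_congr a fun u v _ => ?_
      rw [hst, hX, mul_sum]
      refine sum_congr rfl fun l _ => ?_
      rw [smul_eq_mul]
      ring
    rw [e1, dsum_sum]
    refine sum_congr rfl fun l hl => ?_
    rw [dsum_smul, smul_eq_mul, hwd a l N (mem_range.1 hl).le]
  have h2 := LinearMap.congr_fun h1 x
  rw [LinearMap.comp_apply] at h2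
  rw [h2, LinearMap.sum_apply]
  rfl

theorem Fn_ell_C (hst : SpecFst) (hwd : SpecWD) (hc : SpecFC) (N : ℕ) (x : V) :
    Fn N (ell C x) = ∑ l ∈ range N, ((N : ℚ) - l)⁻¹ * wL l N x := by
  refine Fn_ell hst hwd N C _ (fun v => ?_) x
  rw [hc]
  exact sum_congr rfl fun l _ => by rw [div_eq_mul_inv, mul_comm]

theorem Fn_ell_Cy (hst : SpecFst) (hwd : SpecWD) (hc : SpecFC) (N : ℕ) (x : V) :
    Fn N (ell (C ∘ₗ sty) x) =
      ∑ l ∈ range N, (((N : ℚ) - l)⁻¹ * Fn l (e [0])) * wL l N x := by
  refine Fn_ell hst hwd N _ _ (fun v => ?_) x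
  rw [LinearMap.comp_apply, hc]
  refine sum_congr rfl fun l _ => ?_
  rw [sty, hst, div_eq_mul_inv]
  ring

theorem Fn_ell_Z (hst : SpecFst) (hwd : SpecWD) (hz : SpecFZ) (N : ℕ) (x : V) :
    Fn N (ell Z x) = ∑ l ∈ range N, (((N : ℚ) - l) ^ 2)⁻¹ * wL l N x := by
  refine Fn_ell hst hwd N Z _ (fun v => ?_) x
  rw [hz]
  exact sum_congr rfl fun l _ => by rw [div_eq_mul_inv, mul_comm]

theorem Fn_ell_CC (hst : SpecFst) (hwd : SpecWD) (hc : SpecFC) (N : ℕ) (x : V) :
    Fn N (ell (C ∘ₗ C) x) = ∑ l ∈ range N,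
      (∑ M ∈ Ioo l N, ((N : ℚ) - M)⁻¹ * ((M : ℚ) - l)⁻¹) * wL l N x := by
  refine Fn_ell hst hwd N _ _ (fun v => ?_) x
  rw [LinearMap.comp_apply, hc]
  have e1 : ∑ M ∈ range N, Fn M (C v) / ((N : ℚ) - M) = ∑ M ∈ range N, ∑ l ∈ range M,
      (((N : ℚ) - M)⁻¹ * ((M : ℚ) - l)⁻¹) * Fn l v := by
    refine sum_congr rfl fun M _ => ?_
    rw [hc, sum_div]
    refine sum_congr rfl fun l _ => ?_
    rw [div_eq_mul_inv, div_eq_mul_inv]
    ring
  rw [e1, ← swap_sum N fun l M => (((N : ℚ) - M)⁻¹ * ((M : ℚ) - l)⁻¹) * Fn l v]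
  refine sum_congr rfl fun l _ => ?_
  rw [sum_mul]

/-! ### harmonic numbers -/

/-- the harmonic numbers -/
noncomputable def Hn (N : ℕ) : ℚ := Fn N (e [0])

theorem Hn_eq (N : ℕ) : Hn N = ∑ n ∈ range N, ((n : ℚ) + 1)⁻¹ := by
  unfold Hn Fn
  rw [lin1_e]
  show hs [0 + 1] N = _
  rw [hs_cons]
  exact sum_congr rfl fun n _ => by rw [hs_nil]; simp

theorem Hn_succ (N : ℕ) : Hn (N + 1) = Hn N + ((N : ℚ) + 1)⁻¹ := by
  rw [Hn_eq, Hn_eq, sum_range_succ]

/-- `∑_{l < M} 1/(M-l) = H_M` -/
theorem sum_inv_sub (M : ℕ) : ∑ l ∈ range M, ((M : ℚ) - l)⁻¹ = Hn M := by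
  rw [Hn_eq, ← Finset.sum_range_reflect]
  refine sum_congr rfl fun l hl => ?_
  have h1 := mem_range.1 hl
  rw [Nat.cast_sub (by omega), Nat.cast_sub (by omega)]
  congr 1
  push_cast
  ring

/-- `∑_{l < M} 1/(N-l) = H_N - H_{N-M}` -/
theorem sum_inv_sub' (N M : ℕ) (h : M ≤ N) :
    ∑ l ∈ range M, ((N : ℚ) - l)⁻¹ = Hn N - Hn (N - M) := by
  induction M with
  | zero => simp
  | succ M ih =>
    rw [sum_range_succ, ih (by omega)]
    obtain ⟨k, rfl⟩ : ∃ k, N = M + 1 + k := ⟨N - (M + 1), by omega⟩
    have e1 : M + 1 + k - M = k + 1 := by omega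
    have e2 : M + 1 + k - (M + 1) = k := by omega
    rw [e1, e2, Hn_succ]
    have e3 : ((M + 1 + k : ℕ) : ℚ) - (M : ℚ) = (k : ℚ) + 1 := by
      push_cast
      ring
    rw [e3]
    ring

/-- `∑_{l < M} 1/((M-l)(N-l)) = (H_M - H_N + H_{N-M})/(N-M)` -/
theorem sum_pf1 (N M : ℕ) (h : M < N) :
    ∑ l ∈ range M, ((M : ℚ) - l)⁻¹ * ((N : ℚ) - l)⁻¹ =
      ((N : ℚ) - M)⁻¹ * (Hn M - Hn N + Hn (N - M)) := by
  have hNM : ((N : ℚ) - M) ≠ 0 := by
    have : (M : ℚ) < N := by exact_mod_cast h
    exact ne_of_gt (by linarith)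
  have e1 : ∑ l ∈ range M, ((M : ℚ) - l)⁻¹ * ((N : ℚ) - l)⁻¹ =
      ∑ l ∈ range M, ((N : ℚ) - M)⁻¹ * (((M : ℚ) - l)⁻¹ - ((N : ℚ) - l)⁻¹) := by
    refine sum_congr rfl fun l hl => ?_
    have h1 : (l : ℚ) < M := by exact_mod_cast mem_range.1 hl
    have h2 : (M : ℚ) < N := by exact_mod_cast h
    have h3 : ((M : ℚ) - l) ≠ 0 := ne_of_gt (by linarith)
    have h4 : ((N : ℚ) - l) ≠ 0 := ne_of_gt (by linarith)
    field_simp
    ring
  rw [e1, ← mul_sum, sum_sub_distrib, sum_inv_sub, sum_inv_sub' N M h.le]
  ring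

/-- `∑_{l < M < N} 1/((N-M)(M-l)) = 2 H_{N-l-1}/(N-l)` -/
theorem sum_pf2 (N l : ℕ) (h : l < N) :
    ∑ M ∈ Ioo l N, ((N : ℚ) - M)⁻¹ * ((M : ℚ) - l)⁻¹ =
      2 * (((N : ℚ) - l)⁻¹ * Hn (N - l - 1)) := by
  obtain ⟨k, rfl⟩ : ∃ k, N = l + k + 1 := ⟨N - l - 1, by omega⟩
  have e0 : l + k + 1 - l - 1 = k := by omega
  rw [e0]
  have e1 : ∑ M ∈ Ioo l (l + k + 1), (((l + k + 1 : ℕ) : ℚ) - M)⁻¹ * ((M : ℚ) - l)⁻¹ =
      ∑ i ∈ range k, ((k : ℚ) - i)⁻¹ * ((i : ℚ) + 1)⁻¹ := by
    have e2 : Ioo l (l + k + 1) = (range k).map ⟨fun i => l + 1 + i, fun a b hab => by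
        simpa using hab⟩ := by
      ext M
      simp only [mem_Ioo, mem_map, mem_range, Function.Embedding.coeFn_mk]
      constructor
      · rintro ⟨h1, h2⟩
        exact ⟨M - (l + 1), by omega, by omega⟩
      · rintro ⟨i, hi, rfl⟩
        omega
    rw [e2, sum_map]
    refine sum_congr rfl fun i _ => ?_
    simp only [Function.Embedding.coeFn_mk]
    push_cast
    congr 2 <;> ring
  have e3 : (((l + k + 1 : ℕ) : ℚ) - l) = (k : ℚ) + 1 := by
    push_cast
    ring
  rw [e1, e3]
  have e4 : ∑ i ∈ range k, ((k : ℚ) - i)⁻¹ * ((i : ℚ) + 1)⁻¹ =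
      ∑ i ∈ range k, ((k : ℚ) + 1)⁻¹ * (((k : ℚ) - i)⁻¹ + ((i : ℚ) + 1)⁻¹) := by
    refine sum_congr rfl fun i hi => ?_
    have h1 : (i : ℚ) < k := by exact_mod_cast mem_range.1 hi
    have h0 : (0 : ℚ) ≤ i := Nat.cast_nonneg i
    have h3 : ((k : ℚ) - i) ≠ 0 := ne_of_gt (by linarith)
    have h4 : ((i : ℚ) + 1) ≠ 0 := ne_of_gt (by linarith)
    have h5 : ((k : ℚ) + 1) ≠ 0 := ne_of_gt (by linarith)
    field_simp
    ring
  rw [e4, ← mul_sum, sum_add_distrib, sum_inv_sub, ← Hn_eq]
  ring

/-! ### the linear form of the key relation -/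

theorem key_lin (hcd : SpecCD) (hk : SpecKey) (l N : ℕ) (h : l < N) (x : V) :
    ∑ M ∈ Ioo l N, ((N : ℚ) - M)⁻¹ * wL l M x - ∑ M ∈ Ioo l N, ((M : ℚ) - l)⁻¹ * wL M N x =
      wL l N ((C - ry) x) := by
  have h1 : (∑ M ∈ Ioo l N, ((N : ℚ) - M)⁻¹ • wL l M) - (∑ M ∈ Ioo l N, ((M : ℚ) - l)⁻¹ • wL M N) =
      wL l N ∘ₗ (C - ry) := by
    refine lext fun a => ?_
    rw [LinearMap.sub_apply, LinearMap.sum_apply, LinearMap.sum_apply, LinearMap.comp_apply,
      LinearMap.sub_apply, hcd, ry_e, add_sub_cancel_left, ← hk a l N h]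
    simp only [LinearMap.smul_apply, wL_e, smul_eq_mul]
    congr 1
    · exact sum_congr rfl fun M _ => by rw [div_eq_mul_inv, mul_comm]
    · exact sum_congr rfl fun M _ => by rw [div_eq_mul_inv, mul_comm]
  have h2 := LinearMap.congr_fun h1 x
  rw [LinearMap.sub_apply, LinearMap.sum_apply, LinearMap.sum_apply, LinearMap.comp_apply] at h2
  exact h2

/-- `A_N(x) = ∑_{l < M < N} W_{l,M}(x) / ((N-M)(N-l))` -/
noncomputable def AN (N : ℕ) (x : V) : ℚ :=
  ∑ M ∈ range N, ∑ l ∈ range M, ((N : ℚ) - M)⁻¹ * ((N : ℚ) - l)⁻¹ * wL l M x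

/-- the identity for the remainder -/
theorem Fn_Er (hst : SpecFst) (hc : SpecFC) (hz : SpecFZ) (hcd : SpecCD) (hwd : SpecWD)
    (hk : SpecKey) (N : ℕ) (x : V) : Fn N (Er x) = AN N x - Fn N (ell Z x) := by
  have h0 : Er x = ell C ((C - ry) x) + ell (C ∘ₗ sty) x - sty (ell C x) +
      (1 / 2 : ℚ) • ell (C ∘ₗ C) x := rfl
  rw [h0, map_add, map_sub, map_add, map_smul, Fn_ell_Cy hst hwd hc, sty, hst,
    Fn_ell_C hst hwd hc, Fn_ell_C hst hwd hc, Fn_ell_CC hst hwd hc, Fn_ell_Z hst hwd hz,
    smul_eq_mul]
  have h1 : ∑ l ∈ range N, ((N : ℚ) - l)⁻¹ * wL l N ((C - ry) x) =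
      ∑ l ∈ range N, ∑ M ∈ Ioo l N, ((N : ℚ) - M)⁻¹ * ((N : ℚ) - l)⁻¹ * wL l M x -
      ∑ l ∈ range N, ∑ M ∈ Ioo l N, ((M : ℚ) - l)⁻¹ * ((N : ℚ) - l)⁻¹ * wL M N x := by
    rw [← sum_sub_distrib]
    refine sum_congr rfl fun l hl => ?_
    rw [← key_lin hcd hk l N (mem_range.1 hl), mul_sub, mul_sum, mul_sum]
    congr 1
    · exact sum_congr rfl fun M _ => by ring
    · exact sum_congr rfl fun M _ => by ring
  have h2 : ∑ l ∈ range N, ∑ M ∈ Ioo l N, ((M : ℚ) - l)⁻¹ * ((N : ℚ) - l)⁻¹ * wL M N x =
      ∑ M ∈ range N, (((N : ℚ) - M)⁻¹ * (Hn M - Hn N + Hn (N - M))) * wL M N x := by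
    rw [swap_sum N fun l M => ((M : ℚ) - l)⁻¹ * ((N : ℚ) - l)⁻¹ * wL M N x]
    refine sum_congr rfl fun M hM => ?_
    rw [← sum_mul, sum_pf1 N M (mem_range.1 hM)]
  rw [h1, h2, swap_sum N fun l M => ((N : ℚ) - M)⁻¹ * ((N : ℚ) - l)⁻¹ * wL l M x]
  have h3 : ∑ l ∈ range N, (∑ M ∈ Ioo l N, ((N : ℚ) - M)⁻¹ * ((M : ℚ) - l)⁻¹) * wL l N x =
      ∑ l ∈ range N, (2 * (((N : ℚ) - l)⁻¹ * Hn (N - l - 1))) * wL l N x :=
    sum_congr rfl fun l hl => by rw [sum_pf2 N l (mem_range.1 hl)]
  rw [h3]
  have h4 : Fn N (e [0]) = Hn N := rfl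
  rw [h4]
  have h5 : (∑ M ∈ range N, (((N : ℚ) - M)⁻¹ * (Hn M - Hn N + Hn (N - M))) * wL M N x) =
      ∑ l ∈ range N, (((N : ℚ) - l)⁻¹ * Fn l (e [0])) * wL l N x -
        Hn N * ∑ l ∈ range N, ((N : ℚ) - l)⁻¹ * wL l N x +
        1 / 2 * ∑ l ∈ range N, (2 * (((N : ℚ) - l)⁻¹ * Hn (N - l - 1))) * wL l N x +
        ∑ l ∈ range N, (((N : ℚ) - l) ^ 2)⁻¹ * wL l N x := by
    rw [mul_sum, mul_sum, ← sum_sub_distrib, ← sum_add_distrib, ← sum_add_distrib]
    refine sum_congr rfl fun M hM => ?_
    have hlt := mem_range.1 hM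
    obtain ⟨k, rfl⟩ : ∃ k, N = M + k + 1 := ⟨N - M - 1, by omega⟩
    have e1 : M + k + 1 - M = k + 1 := by omega
    have e2 : M + k + 1 - M - 1 = k := by omega
    have e3 : (((M + k + 1 : ℕ) : ℚ) - M) = (k : ℚ) + 1 := by
      push_cast
      ring
    have e4 : Fn M (e [0]) = Hn M := rfl
    rw [e2, e1, e3, e4, Hn_succ k]
    have h5 : ((k : ℚ) + 1) ≠ 0 := by positivity
    field_simp
    ring
  rw [h5]
  unfold AN
  ring

/-- `Fn N (X_a) = Fn N (ℓ_Z (a + S a))` -/
theorem Fn_Xa (hst : SpecFst) (hz : SpecFZ) (hwd : SpecWD) (hws : SpecWS) (N : ℕ) (a : List ℕ) :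
    Fn N (Xa a) = Fn N (ell Z (e a)) + Fn N (ell Z (S a)) := by
  have h1 : Fn N (Xa a) = dsum (fun u v => Fn N (st (e u) (Z (S v))) +
      ∑ l ∈ range N, (((N : ℚ) - l) ^ 2)⁻¹ • (Fn l (e u) * Fn N (S v))) a := by
    unfold Xa
    rw [dsum_lin]
    refine dsum_congr a fun u v _ => ?_
    rw [map_add, hst (a := S v), hz, mul_sum]
    congr 1
    refine sum_congr rfl fun l _ => ?_
    rw [smul_eq_mul, div_eq_mul_inv]
    ring
  rw [h1, dsum_add, dsum_sum, Fn_ell_Z hst hwd hz N (S a)]
  congr 1
  · rw [ell_e, dsum_lin]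
  · refine sum_congr rfl fun l hl => ?_
    rw [dsum_smul, smul_eq_mul, hws a l N (mem_range.1 hl).le]

/-- the product of the two sums -/
theorem Fn_CC (hst : SpecFst) (hc : SpecFC) (hwd : SpecWD) (hws : SpecWS) (N : ℕ) (a : List ℕ)
    (ha : a ≠ []) :
    Fn N (dsum (fun u v => st (C (e u)) (C (S v))) a) = AN N (e a) + AN N (S a) := by
  have h1 : Fn N (dsum (fun u v => st (C (e u)) (C (S v))) a) =
      ∑ M ∈ range N, ∑ l ∈ range N, ((N : ℚ) - M)⁻¹ * ((N : ℚ) - l)⁻¹ *
        dsum (fun u v => Fn M (e u) * Fn l (S v)) a := by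
    have e1 : dsum (fun u v => Fn N (st (C (e u)) (C (S v)))) a =
        dsum (fun u v => ∑ M ∈ range N, ∑ l ∈ range N, (((N : ℚ) - M)⁻¹ * ((N : ℚ) - l)⁻¹) •
          (Fn M (e u) * Fn l (S v))) a := by
      refine dsum_congr a fun u v _ => ?_
      rw [hst, hc, hc, sum_mul_sum]
      refine sum_congr rfl fun M _ => sum_congr rfl fun l _ => ?_
      rw [smul_eq_mul, div_eq_mul_inv, div_eq_mul_inv]
      ring
    rw [dsum_lin, e1, dsum_sum]
    refine sum_congr rfl fun M _ => ?_
    rw [dsum_sum]
    refine sum_congr rfl fun l _ => ?_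
    rw [dsum_smul, smul_eq_mul]
  have hsplit : ∀ M ∈ range N, ∀ g : ℕ → ℚ, ∑ l ∈ range N, g l =
      ∑ l ∈ range M, g l + g M + ∑ l ∈ Ioo M N, g l := by
    intro M hM g
    have hlt := mem_range.1 hM
    have e1 : range N = range (M + 1) ∪ Ioo M N := by
      ext l
      simp only [mem_range, mem_union, mem_Ioo]
      omega
    have e2 : Disjoint (range (M + 1)) (Ioo M N) := by
      rw [Finset.disjoint_left]
      intro l h1 h2
      simp only [mem_range, mem_Ioo] at h1 h2
      omega
    rw [e1, sum_union e2, sum_range_succ]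
  rw [h1]
  have h2 : ∀ M ∈ range N, ∑ l ∈ range N, ((N : ℚ) - M)⁻¹ * ((N : ℚ) - l)⁻¹ *
        dsum (fun u v => Fn M (e u) * Fn l (S v)) a =
      ∑ l ∈ range M, ((N : ℚ) - M)⁻¹ * ((N : ℚ) - l)⁻¹ * wL l M (e a) +
        ∑ l ∈ Ioo M N, ((N : ℚ) - l)⁻¹ * ((N : ℚ) - M)⁻¹ * wL M l (S a) := by
    intro M hM
    rw [hsplit M hM, ← hwd a M M le_rfl, wn_self a ha M, mul_zero, add_zero]
    congr 1
    · refine sum_congr rfl fun l hl => ?_
      rw [wL_e, hwd a l M (mem_range.1 hl).le]
    · refine sum_congr rfl fun l hl => ?_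
      rw [hws a M l (mem_Ioo.1 hl).1.le]
      ring
  rw [sum_congr rfl h2, sum_add_distrib,
    swap_sum N fun M l => ((N : ℚ) - l)⁻¹ * ((N : ℚ) - M)⁻¹ * wL M l (S a)]
  rfl

/-- ID from the function model -/
theorem specId (hinj : SpecFinj) (hst : SpecFst) (hc : SpecFC) (hz : SpecFZ) (hcd : SpecCD)
    (hwd : SpecWD) (hws : SpecWS) (hk : SpecKey) : SpecId := by
  intro a ha
  rw [← sub_eq_zero]
  refine hinj _ fun N => ?_
  rw [map_sub, map_sub, map_add, Fn_Xa hst hz hwd hws, Fn_CC hst hc hwd hws N a ha,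
    Fn_Er hst hc hz hcd hwd hk, Fn_Er hst hc hz hcd hwd hk]
  ring

end MP154526.Lin.T2
end

section
/-!
# T2: the calculus modulo `J`
-/
set_option autoImplicit false

namespace MP154526.Lin.T2.JCM

open Finset MP154526.Top MP154526.Top.Pass2

theorem one_mem_V0 : e [] ∈ V0 := mem_V0.2 del_nil

theorem ek_mem_V0 {k : ℕ} : e [k + 1] ∈ V0 := mem_V0.2 (del_succ k [])

theorem cc_mem_V0 (k : ℕ) : cc (k + 1) ∈ V0 := V0.smul_mem _ ek_mem_V0

theorem del_cc_zero : del (cc 0) = e [] := by simp [cc]

theorem del_cc_succ (k : ℕ) : del (cc (k + 1)) = 0 := mem_V0.1 (cc_mem_V0 k)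

theorem del_pow_succ (k : ℕ) (v : V) : (del ^ (k + 1)) v = (del ^ k) (del v) := by
  rw [pow_succ]
  rfl

theorem del_pow_succ' (k : ℕ) (v : V) : (del ^ (k + 1)) v = del ((del ^ k) v) := by
  rw [pow_succ']
  rfl

theorem del_pow_st {d : V} (hd : d ∈ V0) (k : ℕ) (v : V) :
    (del ^ k) (st d v) = st d ((del ^ k) v) := by
  induction k generalizing v with
  | zero => rfl
  | succ k ih =>
    rw [del_pow_succ, del_pow_succ, del_st, mem_V0.1 hd, map_zero, LinearMap.zero_apply, zero_add,
      ih]

theorem del_pow_C (k : ℕ) (v : V) :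
    (del ^ (k + 1)) (C v) = C ((del ^ (k + 1)) v) + ((k : ℚ) + 1) • (del ^ k) v := by
  induction k with
  | zero =>
    simp only [zero_add, pow_one, pow_zero, Nat.cast_zero, one_smul]
    rw [del_C, add_comm]
    rfl
  | succ k ih =>
    rw [del_pow_succ', ih, map_add, del_C, map_smul, ← del_pow_succ', ← del_pow_succ']
    push_cast
    rw [add_smul ((k : ℚ) + 1) 1, one_smul]
    abel

theorem del_pow_y (k : ℕ) (v : V) : (del ^ (k + 1)) (st (e [0]) v) =
    st (e [0]) ((del ^ (k + 1)) v) + ((k : ℚ) + 1) • (del ^ k) v := by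
  induction k with
  | zero =>
    simp only [zero_add, pow_one, pow_zero, Nat.cast_zero, one_smul]
    rw [del_st, del_zero, one_st, add_comm]
    rfl
  | succ k ih =>
    rw [del_pow_succ', ih, map_add, del_st, del_zero, one_st, map_smul, ← del_pow_succ',
      ← del_pow_succ']
    push_cast
    rw [add_smul ((k : ℚ) + 1) 1, one_smul]
    abel

theorem nilp (v : V) : ∃ K, (del ^ K) v = 0 := by
  have hmono : ∀ (v : V) (K L : ℕ), K ≤ L → (del ^ K) v = 0 → (del ^ L) v = 0 := by
    intro v K L hKL h
    obtain ⟨d, rfl⟩ := Nat.exists_eq_add_of_le' hKL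
    rw [pow_add]
    show (del ^ d) ((del ^ K) v) = 0
    rw [h, map_zero]
  induction v using vind with
  | h0 => exact ⟨0, by simp⟩
  | hadd a b ha hb =>
    obtain ⟨K, hK⟩ := ha
    obtain ⟨L, hL⟩ := hb
    exact ⟨max K L, by
      rw [map_add, hmono a K _ (le_max_left _ _) hK, hmono b L _ (le_max_right _ _) hL, add_zero]⟩
  | hs r l =>
    have : ∃ K, (del ^ K) (e l) = 0 := by
      induction l with
      | nil => exact ⟨1, by rw [pow_one, del_nil]⟩
      | cons a l ih =>
        obtain ⟨K, hK⟩ := ih
        cases a with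
        | zero => exact ⟨K + 1, by rw [del_pow_succ, del_zero, hK]⟩
        | succ a => exact ⟨1, by rw [pow_one, del_succ]⟩
    obtain ⟨K, hK⟩ := this
    exact ⟨K, by rw [map_smul, hK, smul_zero]⟩

theorem mem_J {f : V →ₗ[ℚ] ℚ} {X : V} :
    X ∈ J f ↔ ∀ (k : ℕ) (d : V), d ∈ V0 → f (st d ((del ^ k) X)) = 0 := Iff.rfl

theorem del_J {f : V →ₗ[ℚ] ℚ} {X : V} (h : X ∈ J f) (m : ℕ) : (del ^ m) X ∈ J f := by
  rw [mem_J] at h ⊢
  intro k d hd
  have := h (k + m) d hd
  rw [pow_add] at this
  exact this

/-- `f(d * C Q) = 0` -/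
theorem f_dC {f : V →ₗ[ℚ] ℚ} (hf : FR f) (d Q : V) (hd : d ∈ V0) : f (st d (C Q)) = 0 := by
  rw [st_comm, hf.r2 _ _ hd, C, sh_assoc]
  exact hf.r1 _

theorem C_mem {f : V →ₗ[ℚ] ℚ} (hf : FR f) {X : V} (hX : X ∈ J f) : C X ∈ J f := by
  rw [mem_J]
  intro k d hd
  cases k with
  | zero => exact f_dC hf d X hd
  | succ k =>
    rw [del_pow_C, map_add, map_add, f_dC hf d _ hd, map_smul, map_smul, mem_J.1 hX k d hd]
    simp

theorem V0_mem {f : V →ₗ[ℚ] ℚ} {X w : V} (hX : X ∈ J f) (hw : w ∈ V0) : st w X ∈ J f := by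
  rw [mem_J]
  intro k d hd
  rw [del_pow_st hw, ← st_assoc]
  exact mem_J.1 hX k _ (st_mem_V0 hd hw)

theorem Yo_apply (K : ℕ) (v : V) : Yo K v = ∑ k ∈ range K, st (cc k) ((del ^ k) v) := by
  simp [Yo]

theorem f_yQ {f : V →ₗ[ℚ] ℚ} (hF1 : SpecF1) (hf : FR f) {Q : V} (hQ : Q ∈ J f) :
    f (st (e [0]) Q) = 0 := by
  obtain ⟨K, hK⟩ := nilp Q
  have h1 := hF1 f hf (K + 1) Q (by rw [del_pow_succ', hK, map_zero])
  rw [Yo_apply, Finset.sum_range_succ', map_add, map_sum, Finset.sum_eq_zero, zero_add] at h1
  · simpa [cc] using h1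
  · intro k _
    exact mem_J.1 hQ (k + 1) _ (cc_mem_V0 k)

theorem y_mem {f : V →ₗ[ℚ] ℚ} (hF1 : SpecF1) (hf : FR f) {X : V} (hX : X ∈ J f) :
    st (e [0]) X ∈ J f := by
  have h1 : ∀ Q ∈ J f, ∀ d ∈ V0, f (st d (st (e [0]) Q)) = 0 := by
    intro Q hQ d hd
    rw [st_left_comm]
    exact f_yQ hF1 hf (V0_mem hQ hd)
  rw [mem_J]
  intro k d hd
  cases k with
  | zero => exact h1 X hX d hd
  | succ k =>
    rw [del_pow_y, map_add, map_add, h1 _ (del_J hX (k + 1)) d hd, map_smul, map_smul,
      mem_J.1 hX k d hd]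
    simp

theorem yj_mem {f : V →ₗ[ℚ] ℚ} (hF1 : SpecF1) (hN : SpecNewt) (hf : FR f) (j : ℕ) {X : V}
    (hX : X ∈ J f) : st (e (List.replicate j 0)) X ∈ J f := by
  induction j using Nat.strong_induction_on with
  | _ j ih =>
    cases j with
    | zero => simpa using hX
    | succ j =>
      have h1 := hN j
      have h2 : e (List.replicate (j + 1) 0) = ((j : ℚ) + 1)⁻¹ •
          (st (e [0]) (e (List.replicate j 0)) - ∑ k ∈ range j, (-1 : ℚ) ^ k •
            st (e [k + 1]) (e (List.replicate (j - (k + 1)) 0))) := by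
        rw [h1, add_sub_cancel_right, smul_smul, inv_mul_cancel₀ (by positivity), one_smul]
      rw [h2, map_smul, LinearMap.smul_apply]
      refine (J f).smul_mem _ ?_
      rw [map_sub, LinearMap.sub_apply]
      refine (J f).sub_mem ?_ ?_
      · rw [st_assoc]
        exact y_mem hF1 hf (ih j (by omega))
      · rw [map_sum, LinearMap.sum_apply]
        refine (J f).sum_mem fun k hk => ?_
        rw [map_smul, LinearMap.smul_apply, st_assoc]
        exact (J f).smul_mem _ (V0_mem (ih _ (by omega)) ek_mem_V0)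

theorem ideal {f : V →ₗ[ℚ] ℚ} (hF1 : SpecF1) (hN : SpecNewt) (hT : SpecTri') (hf : FR f)
    (w X : V) (hX : X ∈ J f) : st w X ∈ J f := by
  have h1 : (J f).mkQ ∘ₗ (st.flip X) = 0 := by
    refine hT _ _ fun i b hb => ?_
    show (J f).mkQ (st (st (e (List.replicate i 0)) b) X) = 0
    rw [Submodule.mkQ_apply, Submodule.Quotient.mk_eq_zero, st_assoc]
    exact yj_mem hF1 hN hf i (V0_mem hX hb)
  have h2 : (J f).mkQ (st w X) = 0 := by
    have := LinearMap.congr_fun h1 w
    exact this
  rwa [Submodule.mkQ_apply, Submodule.Quotient.mk_eq_zero] at h2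

theorem del_Yo (K : ℕ) (v : V) : del (Yo (K + 1) v) = v + Yo (K + 1) (del v) := by
  rw [Yo_apply, Yo_apply, map_sum]
  have h1 : ∀ k ∈ range (K + 1), del (st (cc k) ((del ^ k) v)) =
      (if k = 0 then v else 0) + st (cc k) ((del ^ k) (del v)) := by
    intro k _
    rw [del_st, ← del_pow_succ', del_pow_succ]
    congr 1
    cases k with
    | zero =>
      rw [del_cc_zero, if_pos rfl, one_st]
      rfl
    | succ k => rw [del_cc_succ, if_neg (by omega), map_zero, LinearMap.zero_apply]
  rw [Finset.sum_congr rfl h1, Finset.sum_add_distrib, Finset.sum_ite_eq' (range (K + 1)) 0]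
  simp

theorem m_mem {f : V →ₗ[ℚ] ℚ} (hF1 : SpecF1) (hf : FR f) (K : ℕ) (v : V)
    (hv : (del ^ K) v = 0) : C v - Yo (K + 1) v ∈ J f := by
  have h1 : ∀ k, (del ^ k) (C v - Yo (K + 1) v) =
      C ((del ^ k) v) - Yo (K + 1) ((del ^ k) v) := by
    intro k
    induction k with
    | zero => rfl
    | succ k ih =>
      rw [del_pow_succ', ih, map_sub, del_C, del_Yo, ← del_pow_succ']
      abel
  rw [mem_J]
  intro k d hd
  rw [h1, map_sub, map_sub, f_dC hf d _ hd, zero_sub, neg_eq_zero, Yo_apply, map_sum]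
  have h2 : ∑ i ∈ range (K + 1), (st d) ((st (cc i)) ((del ^ i) ((del ^ k) v))) =
      Yo (K + 1) (st d ((del ^ k) v)) := by
    rw [Yo_apply]
    refine Finset.sum_congr rfl fun i _ => ?_
    rw [st_left_comm, del_pow_st hd]
  rw [h2]
  apply hF1 f hf
  have h3 : (del ^ (K + 1)) ((del ^ k) v) = (del ^ (k + 1)) ((del ^ K) v) := by
    have e1 : (del ^ (K + 1)) ((del ^ k) v) = (del ^ (K + 1) * del ^ k) v := rfl
    have e2 : (del ^ (k + 1)) ((del ^ K) v) = (del ^ (k + 1) * del ^ K) v := rfl
    rw [e1, e2, ← pow_add, ← pow_add]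
    congr 2
    omega
  rw [del_pow_st hd, h3, hv, map_zero, map_zero]

end MP154526.Lin.T2.JCM

namespace MP154526.Lin.T2

theorem specJ (hF1 : SpecF1) (hN : SpecNewt) (hT : SpecTri') : SpecJ where
  f0 f _ X hX := by
    have := JCM.mem_J.1 hX 0 _ JCM.one_mem_V0
    simpa using this
  ideal f hf w X hX := JCM.ideal hF1 hN hT hf w X hX
  c f hf X hX := JCM.C_mem hf hX
  m f hf K v hv := JCM.m_mem hF1 hf K v hv

end MP154526.Lin.T2
end

section
/-!
# T2: the relation for a factor `y` (SpecLY) and the relation (†) (SpecDag)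
-/
set_option autoImplicit false

namespace MP154526.Lin.T2

open Finset MP154526.Top MP154526.Top.Pass2

namespace LYM

theorem del_pow_st (θ : V) (hθ : del θ = 0) (k : ℕ) (w : V) :
    (del ^ k) (st w θ) = st ((del ^ k) w) θ := by
  induction k generalizing w with
  | zero => simp
  | succ k ih =>
    rw [pow_succ, Module.End.mul_apply, Module.End.mul_apply, del_st, hθ, map_zero, add_zero, ih]

theorem theta_mem (b : V) (hb : b ∈ V0) : del (Z b - st (e [1]) b) = 0 := by
  have h1 : e [1] ∈ V0 := by rw [mem_V0]; exact del_succ 0 []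
  have h2 : Z b - st (e [1]) b ∈ V0 := Submodule.sub_mem _ (sh_mem_V0 h1 hb) (st_mem_V0 h1 hb)
  exact mem_V0.1 h2

end LYM

open LYM

theorem Lf_apply (f : V →ₗ[ℚ] ℚ) (w b : V) : Lf f w b = f (st w (Z b - st (e [1]) b)) := rfl

/-- LY -/
theorem specLY (hF1 : SpecF1) : SpecLY := by
  intro f hf K w b hb hw
  have hθ := theta_mem b hb
  set θ : V := Z b - st (e [1]) b with hθd
  have h1 : (del ^ (K + 1)) (st w θ) = 0 := by
    rw [del_pow_st θ hθ, pow_succ', Module.End.mul_apply, hw]
    simp
  have h2 := hF1 f hf (K + 1) (st w θ) h1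
  have h3 : Yo (K + 1) (st w θ) = st (e [0]) (st w θ) +
      ∑ k ∈ range K, st (cc (k + 1)) (st ((del ^ (k + 1)) w) θ) := by
    rw [Yo, LinearMap.sum_apply, Finset.sum_range_succ', add_comm]
    congr 1
    refine Finset.sum_congr rfl fun k _ => ?_
    rw [LinearMap.comp_apply, del_pow_st θ hθ]
  rw [h3, map_add, map_sum] at h2
  rw [Lf_apply, ← hθd, st_assoc]
  rw [eq_neg_iff_add_eq_zero, ← h2]
  congr 1
  refine Finset.sum_congr rfl fun k _ => ?_
  rw [Lf_apply, ← hθd, st_assoc]

/-- DAG -/
theorem specDag (hAS : SpecAS) : SpecDag := by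
  intro f hf x a hx ha hne
  have hNP : NP a := by
    rcases a with _ | ⟨b, l⟩
    · exact absurd rfl hne
    · refine ⟨b, List.mem_cons_self, ?_⟩
      intro hb
      subst hb
      exact absurd (ha 0 (by simp)) (by omega)
  have h1 : f (st x (Xa a)) = 0 := by
    have h2 := hAS f hf a hNP 0 x hx
    simpa using h2
  have hz : e [1] ∈ V0 := by rw [mem_V0]; exact del_succ 0 []
  have hS1 := specS1 a
  rw [if_neg hne] at hS1
  have h3 : dsum (fun u v => f (st x (st (e u) (Z (S v)) + st (S v) (Z (e u))))) a = 0 := by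
    rw [← h1, Xa]
    have := dsum_lin (f ∘ₗ st x) (fun u v => st (e u) (Z (S v)) + st (S v) (Z (e u))) a
    exact this.symm
  have h4 : dsum (fun u v => f (st (st x (e [1])) (st (e u) (S v)))) a = 0 := by
    have := dsum_lin (f ∘ₗ st (st x (e [1]))) (fun u v => st (e u) (S v)) a
    rw [hS1, map_zero] at this
    exact this.symm
  have h5 : dsum (fun u v => Lf f (st x (S v)) (e u) + Lf f (S v) (st x (e u))) a =
      dsum (fun u v => f (st x (st (e u) (Z (S v)) + st (S v) (Z (e u)))) -
        (f (st (st x (e [1])) (st (e u) (S v))) + f (st (st x (e [1])) (st (e u) (S v))))) a := by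
    refine dsum_congr a fun u v huv => ?_
    have hu : e u ∈ V0 := by
      apply e_mem_V0
      intro c hc
      rcases u with _ | ⟨d, u⟩
      · simp at hc
      · apply ha c
        rw [← huv]
        simpa using hc
    have hxu : st x (e u) ∈ V0 := st_mem_V0 hx hu
    rw [Lf_apply, Lf_apply]
    simp only [map_sub, map_add]
    have e1 : f (st (S v) (Z (st x (e u)))) = f (st x (st (e u) (Z (S v)))) := by
      have hZ : Z (st x (e u)) ∈ V0 := sh_mem_V0 hz hxu
      rw [hf.r2 (S v) _ hZ]
      show f (sh (S v) (sh (e [1]) (st x (e u)))) = f (st x (st (e u) (sh (e [1]) (S v))))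
      rw [← sh_assoc, sh_comm (S v) (e [1]), ← hf.r2 _ _ hxu, st_comm, st_assoc]
    have e2 : f (st (st x (S v)) (Z (e u))) = f (st x (st (S v) (Z (e u)))) := by
      rw [st_assoc]
    have e3 : f (st (st x (S v)) (st (e [1]) (e u))) =
        f (st (st x (e [1])) (st (e u) (S v))) := by
      congr 1
      rw [st_assoc, st_assoc, st_left_comm (S v) (e [1]), st_comm (S v) (e u)]
    have e4 : f (st (S v) (st (e [1]) (st x (e u)))) =
        f (st (st x (e [1])) (st (e u) (S v))) := by
      congr 1
      rw [st_left_comm (S v) (e [1]), st_left_comm (S v) x, st_comm (S v) (e u), st_assoc,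
        st_left_comm x (e [1])]
    rw [e1, e2, e3, e4]
    ring
  rw [h5, dsum_sub, h3, dsum_add, h4]
  simp

end MP154526.Lin.T2
end

section
/-!
# T2: Newton's identity `y * y^j = (j+1) y^{j+1} + ∑_{k=1}^j (-1)^{k-1} z_{k+1} * y^{j-k}`
-/
set_option autoImplicit false

namespace MP154526.Lin.T2

open Finset MP154526.Top MP154526.Top.Pass2

/-- the sum of the words with one letter `m` and `i` letters `0` -/
noncomputable def An (f : List ℕ → V) (m : ℕ) : ℕ → V
  | 0 => f [m]
  | i + 1 => f (m :: List.replicate (i + 1) 0) + An (fun l => f (0 :: l)) m i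

theorem An_zero' (f : List ℕ → V) (i : ℕ) :
    An f 0 i = ((i : ℚ) + 1) • f (List.replicate (i + 1) 0) := by
  induction i generalizing f with
  | zero => simp [An]
  | succ i ih =>
    rw [An, ih, List.replicate_succ (n := i + 1)]
    push_cast
    module

theorem stf_An (f : List ℕ → V) (m i : ℕ) :
    stf f [m] (List.replicate (i + 1) 0) = An f m (i + 1) + An f (m + 1) i := by
  induction i generalizing f with
  | zero =>
    rw [zero_add, List.replicate_one, stf_cons_cons]
    simp [An]
  | succ i ih =>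
    have e1 : An f m (i + 1 + 1) = f (m :: List.replicate (i + 1 + 1) 0) +
        An (fun l => f (0 :: l)) m (i + 1) := rfl
    have e2 : An f (m + 1) (i + 1) = f ((m + 1) :: List.replicate (i + 1) 0) +
        An (fun l => f (0 :: l)) (m + 1) i := rfl
    rw [e1, e2, List.replicate_succ (n := i + 1), stf_cons_cons, ih, stf_nil_left, stf_nil_left]
    simp only [add_zero]
    abel

theorem An_tel (f : List ℕ → V) (m i : ℕ) :
    ∑ k ∈ range (i + 1), (-1 : ℚ) ^ k • stf f [m + k] (List.replicate (i - k) 0) = An f m i := by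
  induction i generalizing m with
  | zero => simp [An]
  | succ i ih =>
    rw [sum_range_succ']
    have h : ∀ k ∈ range (i + 1), (-1 : ℚ) ^ (k + 1) •
        stf f [m + (k + 1)] (List.replicate (i + 1 - (k + 1)) 0) =
        - ((-1 : ℚ) ^ k • stf f [m + 1 + k] (List.replicate (i - k) 0)) := by
      intro k _
      rw [Nat.succ_sub_succ, pow_succ, show m + (k + 1) = m + 1 + k by ring]
      module
    rw [sum_congr rfl h, sum_neg_distrib, ih (m + 1), Nat.sub_zero, stf_An]
    simp only [pow_zero, one_smul, add_zero]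
    abel

theorem specNewt : SpecNewt := by
  intro j
  cases j with
  | zero => simp
  | succ i =>
    have h : ∀ k ∈ range (i + 1), (-1 : ℚ) ^ k •
        st (e [k + 1]) (e (List.replicate (i + 1 - (k + 1)) 0)) =
        (-1 : ℚ) ^ k • stf e [1 + k] (List.replicate (i - k) 0) := by
      intro k _
      rw [st_e, Nat.succ_sub_succ, add_comm k 1]
    rw [sum_congr rfl h, An_tel, st_e, stf_An, An_zero']

end MP154526.Lin.T2
end
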