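import Pool.Agent.Lib.MP_154526_nt.Lin.T2.Newt

/-!
# T2: `X_a ∈ J` for nonpure words, `SpecAS`
-/

set_option autoImplicit false

namespace MP154526.Lin.T2

open Finset MP154526.Top MP154526.Top.Pass2

/-- `∑_{a = u v} u * ∂^k G(v) = 0` for all `k` -/
def Good (a : List ℕ) (G : List ℕ → V) : Prop :=
  ∀ k, dsum (fun u v => st (e u) ((del ^ k) (G v))) a = 0

theorem Good.del {a : List ℕ} {G : List ℕ → V} (h : Good a G) : Good a fun v => del (G v) := by
  intro k
  have := h (k + 1)
  simp only [pow_succ, Module.End.mul_apply] at this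
  exact this

theorem Good.delp {a : List ℕ} {G : List ℕ → V} (h : Good a G) (j : ℕ) :
    Good a fun v => (T2.del ^ j) (G v) := by
  intro k
  have := h (k + j)
  simp only [pow_add, Module.End.mul_apply] at this
  exact this

theorem Good.add {a : List ℕ} {G H : List ℕ → V} (hG : Good a G) (hH : Good a H) :
    Good a fun v => G v + H v := by
  intro k
  simp only [map_add]
  rw [dsum_add, hG k, hH k, add_zero]

theorem Good.sum {a : List ℕ} (n : ℕ) (G : ℕ → List ℕ → V) (hG : ∀ i, Good a (G i)) :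
    Good a fun v => ∑ i ∈ range n, G i v := by
  intro k
  simp only [map_sum]
  rw [dsum_sum]
  exact Finset.sum_eq_zero fun i _ => hG i k

theorem Good.st {a : List ℕ} {G : List ℕ → V} (h : Good a G) (c : V) :
    Good a fun v => T2.st c (G v) := by
  intro k
  induction k generalizing c G with
  | zero =>
    have h0 := h 0
    simp only [pow_zero, Module.End.one_apply] at h0 ⊢
    have h1 : (fun u v => T2.st (e u) (T2.st c (G v))) =
        fun u v => T2.st c (T2.st (e u) (G v)) := by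
      funext u v
      rw [st_left_comm]
    rw [h1, ← dsum_lin, h0, map_zero]
  | succ k ih =>
    simp only [pow_succ, Module.End.mul_apply, del_st]
    simp only [map_add]
    rw [dsum_add, ih h (T2.del c), ih h.del c, add_zero]

theorem Good.yo {a : List ℕ} {G : List ℕ → V} (h : Good a G) (K : ℕ) :
    Good a fun v => Yo K (G v) := by
  have h1 : (fun v => Yo K (G v)) =
      fun v => ∑ k ∈ range K, T2.st (cc k) ((T2.del ^ k) (G v)) := by
    funext v
    rw [Yo, LinearMap.sum_apply]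
    rfl
  rw [h1]
  exact Good.sum K _ fun i => (h.delp i).st (cc i)

theorem good_S (hDV : SpecDV) {a : List ℕ} (ha : NP a) : Good a S := by
  intro k
  have := hDV 0 k a ha
  simpa only [pow_zero, Module.End.one_apply] using this

section
variable {f : V →ₗ[ℚ] ℚ}

theorem ellJ (hJ : SpecJ) (hf : FR f) {a : List ℕ} {G : List ℕ → V} (h : Good a G) :
    dsum (fun u v => st (e u) (C (G v))) a ∈ J f := by
  obtain ⟨K, hK⟩ := del_pow_unif (fun _ v => G v) a
  have h0 := (h.yo (K + 1)) 0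
  simp only [pow_zero, Module.End.one_apply] at h0
  have h1 : dsum (fun u v => st (e u) (C (G v))) a =
      dsum (fun u v => st (e u) (C (G v) - Yo (K + 1) (G v))) a +
        dsum (fun u v => st (e u) (Yo (K + 1) (G v))) a := by
    rw [← dsum_add]
    refine dsum_congr _ fun u v _ => ?_
    rw [← map_add, sub_add_cancel]
  rw [h1, h0, add_zero]
  exact dsum_mem (J f).toAddSubmonoid _ _ fun u v huv =>
    hJ.ideal f hf _ _ (hJ.m f hf K _ (hK u v huv))

theorem ell_C_mem (hDV : SpecDV) (hJ : SpecJ) (hf : FR f) {a : List ℕ} (ha : NP a) :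
    ell C (e a) ∈ J f := by
  rw [ell, lin1_e]
  exact ellJ hJ hf (good_S hDV ha)

theorem ell_Csty_mem (hDV : SpecDV) (hJ : SpecJ) (hf : FR f) {a : List ℕ} (ha : NP a) :
    ell (C ∘ₗ sty) (e a) ∈ J f := by
  rw [ell, lin1_e]
  exact ellJ hJ hf ((good_S hDV ha).st (e [0]))

theorem ell_CC_mem (hDV : SpecDV) (hJ : SpecJ) (hf : FR f) {a : List ℕ} (ha : NP a) :
    ell (C ∘ₗ C) (e a) ∈ J f := by
  rw [ell, lin1_e]
  obtain ⟨K, hK⟩ := del_pow_unif (fun _ v => S v) a
  have h1 : dsum (fun u v => st (e u) ((C ∘ₗ C) (S v))) a =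
      dsum (fun u v => st (e u) (C (C (S v) - Yo (K + 1) (S v)))) a +
        dsum (fun u v => st (e u) (C (Yo (K + 1) (S v)))) a := by
    rw [← dsum_add]
    refine dsum_congr _ fun u v _ => ?_
    rw [← map_add, ← map_add, sub_add_cancel]
    rfl
  rw [h1]
  refine (J f).add_mem ?_ (ellJ hJ hf ((good_S hDV ha).yo (K + 1)))
  exact dsum_mem (J f).toAddSubmonoid _ _ fun u v huv =>
    hJ.ideal f hf _ _ (hJ.c f hf _ (hJ.m f hf K _ (hK u v huv)))

theorem Yo_apply (K : ℕ) (v : V) : Yo K v = ∑ k ∈ range K, st (cc k) ((del ^ k) v) := by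
  rw [Yo, LinearMap.sum_apply]
  rfl

theorem CC_mem (hDV : SpecDV) (hJ : SpecJ) (hf : FR f) {a : List ℕ} (ha : NP a) :
    dsum (fun u v => st (C (e u)) (C (S v))) a ∈ J f := by
  obtain ⟨K, hK⟩ := del_pow_unif (fun _ v => S v) a
  obtain ⟨K', hK'⟩ := del_pow_unif (fun u _ => e u) a
  have h1 : dsum (fun u v => st (C (e u)) (C (S v))) a =
      dsum (fun u v => st (C (e u) - Yo (K' + 1) (e u)) (C (S v))) a +
        (dsum (fun u v => st (Yo (K' + 1) (e u)) (C (S v) - Yo (K + 1) (S v))) a +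
          dsum (fun u v => st (Yo (K' + 1) (e u)) (Yo (K + 1) (S v))) a) := by
    rw [← dsum_add, ← dsum_add]
    refine dsum_congr _ fun u v _ => ?_
    rw [← map_add, sub_add_cancel, ← LinearMap.add_apply, ← map_add, sub_add_cancel]
  have h2 : dsum (fun u v => st (Yo (K' + 1) (e u)) (Yo (K + 1) (S v))) a = 0 := by
    simp only [Yo_apply, map_sum, LinearMap.sum_apply]
    rw [dsum_sum]
    refine Finset.sum_eq_zero fun i _ => ?_
    rw [dsum_sum]
    refine Finset.sum_eq_zero fun j _ => ?_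
    have h3 := hDV j i a ha
    have h4 : (fun u v => st (st (cc j) ((del ^ j) (e u))) (st (cc i) ((del ^ i) (S v)))) =
        fun u v => st (cc j) (st (cc i) (st ((del ^ j) (e u)) ((del ^ i) (S v)))) := by
      funext u v
      rw [st_assoc, st_left_comm ((del ^ j) (e u))]
    rw [h4]
    have h5 := dsum_lin ((st (cc j)) ∘ₗ (st (cc i)))
      (fun u v => st ((del ^ j) (e u)) ((del ^ i) (S v))) a
    simp only [LinearMap.comp_apply] at h5
    rw [← h5, h3, map_zero, map_zero]
  rw [h1, h2, add_zero]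
  refine (J f).add_mem ?_ ?_
  · refine dsum_mem (J f).toAddSubmonoid _ _ fun u v huv => ?_
    rw [st_comm]
    exact hJ.ideal f hf _ _ (hJ.m f hf K' _ (hK' u v huv))
  · exact dsum_mem (J f).toAddSubmonoid _ _ fun u v huv =>
      hJ.ideal f hf _ _ (hJ.m f hf K _ (hK u v huv))

/-- a linear map with `T (e a) ∈ J` for nonpure words sends the span of these words to `J` -/
theorem span_mem {T : V →ₗ[ℚ] V} (h : ∀ a, NP a → T (e a) ∈ J f) {x : V}
    (hx : x ∈ Submodule.span ℚ {x | ∃ l, NP l ∧ x = e l}) : T x ∈ J f := by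
  have h1 : Submodule.span ℚ {x | ∃ l, NP l ∧ x = e l} ≤ (J f).comap T := by
    rw [Submodule.span_le]
    rintro _ ⟨l, hl, rfl⟩
    exact h l hl
  exact h1 hx

theorem Er_mem (hDV : SpecDV) (hNP : SpecNP) (hJ : SpecJ) (hf : FR f) {a : List ℕ} (ha : NP a) :
    Er (e a) ∈ J f := by
  have h1 : ell C ((C - ry) (e a)) ∈ J f := by
    refine span_mem (fun a ha => ell_C_mem hDV hJ hf ha) ?_
    rw [LinearMap.sub_apply]
    refine Submodule.sub_mem _ (hNP.c a ha) (Submodule.subset_span ⟨a ++ [0], ?_, ?_⟩)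
    · obtain ⟨b, hb, hb0⟩ := ha
      exact ⟨b, List.mem_append_left _ hb, hb0⟩
    · rw [ry, lin1_e]
  have h2 : Er (e a) = ell C ((C - ry) (e a)) + ell (C ∘ₗ sty) (e a) - st (e [0]) (ell C (e a)) +
      (1 / 2 : ℚ) • ell (C ∘ₗ C) (e a) := rfl
  rw [h2]
  refine (J f).add_mem ((J f).sub_mem ((J f).add_mem h1 (ell_Csty_mem hDV hJ hf ha)) ?_) ?_
  · exact hJ.ideal f hf _ _ (ell_C_mem hDV hJ hf ha)
  · exact (J f).smul_mem _ (ell_CC_mem hDV hJ hf ha)

end

/-- AS -/
theorem specAS (hId : SpecId) (hDV : SpecDV) (hNP : SpecNP) (hJ : SpecJ) : SpecAS := by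
  intro f hf a ha
  have ha0 : a ≠ [] := by
    rintro rfl
    obtain ⟨b, hb, _⟩ := ha
    simp at hb
  rw [hId a ha0]
  refine (J f).sub_mem (CC_mem hDV hJ hf ha) ((J f).add_mem (Er_mem hDV hNP hJ hf ha) ?_)
  exact span_mem (fun a ha => Er_mem hDV hNP hJ hf ha) (hNP.s a ha)

end MP154526.Lin.T2
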