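import Pool.Agent.Lib.MP_154526_nt.Lin.Plan
import Pool.Agent.Lib.MP_154526_nt.Top.FrontB
import Pool.Agent.Lib.MP_154526_nt.Top.Span

/-!
# T2: the algebra `ℌ¹` as the vector space on the index lists (`a = k - 1`)

`st` = stuffle, `sh` = shuffle, `del` = removal of a leading `y`, `dsum` = sum over the
deconcatenations, `S` = antipode.
-/

set_option autoImplicit false

namespace MP154526.Lin.T2

open Finset MP154526.Top MP154526.Top.Pass2

/-- `ℌ¹` -/
abbrev V := List ℕ →₀ ℚ

/-- a word -/
noncomputable def e (l : List ℕ) : V := Finsupp.single l 1

section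
variable {M : Type} [AddCommGroup M] [Module ℚ M]

/-- linear extension -/
noncomputable def lin1 (F : List ℕ → M) : V →ₗ[ℚ] M := Finsupp.linearCombination ℚ F

@[simp] theorem lin1_e (F : List ℕ → M) (l : List ℕ) : lin1 F (e l) = F l := by
  simp [lin1, e]

/-- bilinear extension -/
noncomputable def bil (B : List ℕ → List ℕ → M) : V →ₗ[ℚ] V →ₗ[ℚ] M :=
  lin1 fun u => lin1 (B u)

@[simp] theorem bil_e (B : List ℕ → List ℕ → M) (u v : List ℕ) : bil B (e u) (e v) = B u v := by
  simp [bil]

theorem lext {f g : V →ₗ[ℚ] M} (h : ∀ l, f (e l) = g (e l)) : f = g := by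
  refine Finsupp.lhom_ext fun l a => ?_
  have : Finsupp.single l a = a • e l := by simp [e]
  rw [this, map_smul, map_smul, h]

theorem lzero {f : V →ₗ[ℚ] M} (h : ∀ l, f (e l) = 0) (v : V) : f v = 0 := by
  have : f = 0 := lext fun l => by simpa using h l
  rw [this]
  rfl

end

/-- induction on elements of `V` -/
theorem vind {p : V → Prop} (h0 : p 0) (hadd : ∀ a b, p a → p b → p (a + b))
    (hs : ∀ (r : ℚ) l, p (r • e l)) (v : V) : p v := by
  induction v using Finsupp.induction_linear with
  | zero => exact h0
  | add f g hf hg => exact hadd f g hf hg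
  | single l a =>
    have : Finsupp.single l a = a • e l := by simp [e]
    rw [this]
    exact hs a l

/-! ### stuffle -/

/-- the stuffle product -/
noncomputable def st : V →ₗ[ℚ] V →ₗ[ℚ] V := bil fun u v => stf e u v

theorem st_e (u v : List ℕ) : st (e u) (e v) = stf e u v := by simp [st]

theorem map_stf {M : Type} [AddCommGroup M] [Module ℚ M] (f : V →ₗ[ℚ] M) (G : List ℕ → V)
    (u v : List ℕ) : f (stf G u v) = stf (fun l => f (G l)) u v :=
  stf_map f.toAddMonoidHom G u v

theorem st_comm (a b : V) : st a b = st b a := by
  have : st = st.flip := lext fun u => lext fun v => by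
    show st (e u) (e v) = st (e v) (e u)
    rw [st_e, st_e, stf_comm]
  calc st a b = st.flip a b := by rw [← this]
    _ = st b a := rfl

theorem st_assoc (a b c : V) : st (st a b) c = st a (st b c) := by
  have h1 : ∀ u v w, st (st (e u) (e v)) (e w) = st (e u) (st (e v) (e w)) := by
    intro u v w
    rw [st_e, st_e]
    have e1 : st (stf e u v) (e w) = stf (fun l => stf e l w) u v := by
      have := map_stf (st.flip (e w)) e u v
      simp only [LinearMap.flip_apply, st_e] at this
      exact this
    have e2 : st (e u) (stf e v w) = stf (fun l => stf e u l) v w := by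
      have := map_stf (st (e u)) e v w
      simp only [st_e] at this
      exact this
    rw [e1, e2, stf_assoc']
  induction a using vind with
  | h0 => simp
  | hadd a a' ha ha' => simp only [map_add, LinearMap.add_apply, ha, ha']
  | hs r u =>
    simp only [map_smul, LinearMap.smul_apply]
    congr 1
    induction b using vind with
    | h0 => simp
    | hadd a a' ha ha' => simp only [map_add, LinearMap.add_apply, ha, ha']
    | hs r v =>
      simp only [map_smul, LinearMap.smul_apply]
      congr 1
      induction c using vind with
      | h0 => simp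
      | hadd a a' ha ha' => simp only [map_add, ha, ha']
      | hs r w =>
        simp only [map_smul]
        rw [h1]

@[simp] theorem st_one (a : V) : st a (e []) = a := by
  induction a using vind with
  | h0 => simp
  | hadd a a' ha ha' => simp only [map_add, LinearMap.add_apply, ha, ha']
  | hs r u => simp only [map_smul, LinearMap.smul_apply, st_e, stf_nil_right]

@[simp] theorem one_st (a : V) : st (e []) a = a := by rw [st_comm, st_one]

theorem st_left_comm (a b c : V) : st a (st b c) = st b (st a c) := by
  rw [← st_assoc, st_comm a b, st_assoc]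

/-! ### shuffle -/

/-- decoding a word ending in `y` -/
def dc : List Bool → List ℕ
  | [] => []
  | true :: w => 0 :: dc w
  | false :: w => match dc w with
    | [] => []
    | a :: l => (a + 1) :: l

theorem dc_rep (a : ℕ) (w : List Bool) (b : ℕ) (l : List ℕ) (h : dc w = b :: l) :
    dc (List.replicate a false ++ w) = (a + b) :: l := by
  induction a with
  | zero => simpa using h
  | succ a ih =>
    rw [List.replicate_succ, List.cons_append]
    show (match dc (List.replicate a false ++ w) with
      | [] => []
      | a :: l => (a + 1) :: l) = _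
    rw [ih]
    show (a + b + 1) :: l = _
    congr 1
    omega

@[simp] theorem dc_bw (l : List ℕ) : dc (bw l) = l := by
  induction l with
  | nil => rfl
  | cons a l ih =>
    show dc (List.replicate a false ++ true :: bw l) = _
    rw [dc_rep a (true :: bw l) 0 l (by rw [dc, ih])]
    simp

theorem bw_dc (w : List Bool) (h : EndY w) : bw (dc w) = w := by
  obtain ⟨l, rfl⟩ := Front.endY_bw' w h
  rw [dc_bw]

/-- the shuffle product -/
noncomputable def sh : V →ₗ[ℚ] V →ₗ[ℚ] V := bil fun u v => shs (fun w => e (dc w)) (bw u) (bw v)

theorem sh_e (u v : List ℕ) : sh (e u) (e v) = shs (fun w => e (dc w)) (bw u) (bw v) := by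
  simp [sh]

theorem map_shs {M : Type} [AddCommGroup M] [Module ℚ M] (f : V →ₗ[ℚ] M) (u v : List Bool) :
    f (shs (fun w => e (dc w)) u v) = shs (fun w => f (e (dc w))) u v :=
  shs_map f.toAddMonoidHom _ u v

theorem endY_bw (l : List ℕ) : EndY (bw l) := by
  induction l with
  | nil => exact Or.inl rfl
  | cons a l ih =>
    show EndY (List.replicate a false ++ true :: bw l)
    induction a with
    | zero => exact Front.endY_cons_true _ ih
    | succ a iha =>
      rw [List.replicate_succ, List.cons_append]
      exact Front.endY_cons _ _ (by simp) iha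

theorem shs_congr_endY {M : Type} [AddCommMonoid M] (F G : List Bool → M) (u v : List Bool)
    (hu : EndY u) (hv : EndY v)
    (h : ∀ l, EndY l → l.length = u.length + v.length → F l = G l) : shs F u v = shs G u v := by
  induction u, v using shs_induct generalizing F G with
  | h0 W => simpa using h W hv (by simp)
  | h1 a σ => simpa using h (a :: σ) hu (by simp)
  | h2 a σ c W ha hb =>
    rw [shs_cons_cons, shs_cons_cons]
    congr 1
    · refine ha _ _ (Front.endY_tail _ _ hu) hv fun l hl hlen => h _ ?_ ?_
      · refine Front.endY_cons _ _ ?_ hl
        rintro rfl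
        simp only [List.length_nil, List.length_cons] at hlen
        omega
      · simp only [List.length_cons] at hlen ⊢
        omega
    · refine hb _ _ hu (Front.endY_tail _ _ hv) fun l hl hlen => h _ ?_ ?_
      · refine Front.endY_cons _ _ ?_ hl
        rintro rfl
        simp only [List.length_nil, List.length_cons] at hlen
        omega
      · simp only [List.length_cons] at hlen ⊢
        omega

theorem sh_comm (a b : V) : sh a b = sh b a := by
  have : sh = sh.flip := lext fun u => lext fun v => by
    show sh (e u) (e v) = sh (e v) (e u)
    rw [sh_e, sh_e, shs_comm]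
  calc sh a b = sh.flip a b := by rw [← this]
    _ = sh b a := rfl

theorem sh_assoc (a b c : V) : sh (sh a b) c = sh a (sh b c) := by
  have h1 : ∀ u v w, sh (sh (e u) (e v)) (e w) = sh (e u) (sh (e v) (e w)) := by
    intro u v w
    rw [sh_e, sh_e]
    have e1 : sh (shs (fun w => e (dc w)) (bw u) (bw v)) (e w) =
        shs (fun t => shs (fun w => e (dc w)) t (bw w)) (bw u) (bw v) := by
      have := map_shs (sh.flip (e w)) (bw u) (bw v)
      simp only [LinearMap.flip_apply, sh_e] at this
      rw [this]
      exact shs_congr_endY _ _ _ _ (endY_bw u) (endY_bw v) fun l hl _ => by rw [bw_dc l hl]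
    have e2 : sh (e u) (shs (fun w => e (dc w)) (bw v) (bw w)) =
        shs (fun t => shs (fun w => e (dc w)) (bw u) t) (bw v) (bw w) := by
      have := map_shs (sh (e u)) (bw v) (bw w)
      simp only [sh_e] at this
      rw [this]
      exact shs_congr_endY _ _ _ _ (endY_bw v) (endY_bw w) fun l hl _ => by rw [bw_dc l hl]
    rw [e1, e2, Pass1.shs_assoc]
  induction a using vind with
  | h0 => simp
  | hadd a a' ha ha' => simp only [map_add, LinearMap.add_apply, ha, ha']
  | hs r u =>
    simp only [map_smul, LinearMap.smul_apply]
    congr 1
    induction b using vind with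
    | h0 => simp
    | hadd a a' ha ha' => simp only [map_add, LinearMap.add_apply, ha, ha']
    | hs r v =>
      simp only [map_smul, LinearMap.smul_apply]
      congr 1
      induction c using vind with
      | h0 => simp
      | hadd a a' ha ha' => simp only [map_add, ha, ha']
      | hs r w =>
        simp only [map_smul]
        rw [h1]

@[simp] theorem sh_one (a : V) : sh a (e []) = a := by
  induction a using vind with
  | h0 => simp
  | hadd a a' ha ha' => simp only [map_add, LinearMap.add_apply, ha, ha']
  | hs r u =>
    simp only [map_smul, LinearMap.smul_apply, sh_e]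
    show r • shs (fun w => e (dc w)) (bw u) [] = _
    rw [shs_nil_right, dc_bw]

@[simp] theorem one_sh (a : V) : sh (e []) a = a := by rw [sh_comm, sh_one]

theorem sh_left_comm (a b c : V) : sh a (sh b c) = sh b (sh a c) := by
  rw [← sh_assoc, sh_comm a b, sh_assoc]

/-- `y ⧢` -/
noncomputable def C : V →ₗ[ℚ] V := sh (e [0])

/-- `z_2 ⧢` -/
noncomputable def Z : V →ₗ[ℚ] V := sh (e [1])

/-! ### removal of a leading `y` -/

/-- removal of a leading `y` -/
noncomputable def del : V →ₗ[ℚ] V := lin1 fun l => match l with
  | 0 :: l => e l
  | _ => 0

@[simp] theorem del_nil : del (e []) = 0 := by simp [del]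
@[simp] theorem del_zero (l : List ℕ) : del (e (0 :: l)) = e l := by simp [del]
@[simp] theorem del_succ (a : ℕ) (l : List ℕ) : del (e ((a + 1) :: l)) = 0 := by simp [del]

theorem del_cons (a : ℕ) (l : List ℕ) : del (e (a :: l)) = if a = 0 then e l else 0 := by
  cases a <;> simp

theorem del_dc_true (w : List Bool) : del (e (dc (true :: w))) = e (dc w) := by
  show del (e (0 :: dc w)) = _
  simp

theorem del_dc_false (w : List Bool) : del (e (dc (false :: w))) = 0 := by
  show del (e (match dc w with
    | [] => []
    | a :: l => (a + 1) :: l)) = 0
  cases dc w <;> simp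

theorem stf_fun_zero {M : Type} [AddCommMonoid M] (u v : List ℕ) :
    stf (fun _ => (0 : M)) u v = 0 := stf_zero _ _ _ fun _ _ => rfl

/-- `del` is a derivation for the stuffle product -/
theorem del_st (a b : V) : del (st a b) = st (del a) b + st a (del b) := by
  have h1 : ∀ u v, del (st (e u) (e v)) = st (del (e u)) (e v) + st (e u) (del (e v)) := by
    intro u v
    cases u with
    | nil => simp
    | cons a u =>
      cases v with
      | nil => simp
      | cons b v =>
        rw [st_e, stf_cons_cons, map_add, map_add, map_stf, map_stf, map_stf]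
        simp only [del_cons]
        have h3 : a + b + 1 ≠ 0 := by omega
        simp only [if_neg h3, stf_fun_zero, add_zero]
        congr 1
        · by_cases ha : a = 0
          · simp only [if_pos ha, st_e]
          · simp [if_neg ha, stf_fun_zero]
        · by_cases hb : b = 0
          · simp only [if_pos hb, st_e]
          · simp [if_neg hb, stf_fun_zero]
  induction a using vind with
  | h0 => simp
  | hadd a a' ha ha' =>
    simp only [map_add, LinearMap.add_apply, ha, ha']
    abel
  | hs r u =>
    simp only [map_smul, LinearMap.smul_apply, ← smul_add]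
    congr 1
    induction b using vind with
    | h0 => simp
    | hadd a a' ha ha' =>
      simp only [map_add, ha, ha']
      abel
    | hs r v =>
      simp only [map_smul, ← smul_add]
      rw [h1]

/-- `del` is a derivation for the shuffle product -/
theorem del_sh (a b : V) : del (sh a b) = sh (del a) b + sh a (del b) := by
  have h0 : ∀ (x : Bool) (u : List Bool) (y : Bool) (v : List Bool),
      del (shs (fun w => e (dc w)) (x :: u) (y :: v)) =
        (if x = true then shs (fun w => e (dc w)) u (y :: v) else 0) +
          (if y = true then shs (fun w => e (dc w)) (x :: u) v else 0) := by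
    intro x u y v
    rw [map_shs, shs_cons_cons]
    congr 1
    · cases x
      · simp only [del_dc_false, shs_zero]
        simp
      · simp only [del_dc_true, if_true]
    · cases y
      · simp only [del_dc_false, shs_zero]
        simp
      · simp only [del_dc_true, if_true]
  have h1 : ∀ u v, del (sh (e u) (e v)) = sh (del (e u)) (e v) + sh (e u) (del (e v)) := by
    intro u v
    rcases u with _ | ⟨_ | a, u⟩
    · simp
    · rcases v with _ | ⟨_ | b, v⟩
      · simp
      · have := h0 true (bw u) true (bw v)
        simp only [if_true] at this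
        rw [sh_e, del_zero, del_zero, sh_e, sh_e]
        exact this
      · have := h0 true (bw u) false (List.replicate b false ++ true :: bw v)
        simp only [if_true, Bool.false_eq_true, if_false, add_zero] at this
        rw [sh_e, del_zero, del_succ, sh_e, map_zero, add_zero]
        exact this
    · rcases v with _ | ⟨_ | b, v⟩
      · simp
      · have := h0 false (List.replicate a false ++ true :: bw u) true (bw v)
        simp only [if_true, Bool.false_eq_true, if_false, zero_add] at this
        rw [sh_e, del_zero, del_succ, sh_e, map_zero, LinearMap.zero_apply, zero_add]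
        exact this
      · have := h0 false (List.replicate a false ++ true :: bw u) false
          (List.replicate b false ++ true :: bw v)
        simp only [Bool.false_eq_true, if_false, zero_add] at this
        rw [sh_e, del_succ, del_succ, map_zero, map_zero, LinearMap.zero_apply, zero_add]
        exact this
  induction a using vind with
  | h0 => simp
  | hadd a a' ha ha' =>
    simp only [map_add, LinearMap.add_apply, ha, ha']
    abel
  | hs r u =>
    simp only [map_smul, LinearMap.smul_apply, ← smul_add]
    congr 1
    induction b using vind with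
    | h0 => simp
    | hadd a a' ha ha' =>
      simp only [map_add, ha, ha']
      abel
    | hs r v =>
      simp only [map_smul, ← smul_add]
      rw [h1]

theorem del_C (w : V) : del (C w) = w + C (del w) := by
  rw [C, del_sh, del_zero, one_sh]

/-! ### `ℌ⁰` -/

/-- `ℌ⁰` -/
noncomputable def V0 : Submodule ℚ V := LinearMap.ker del

theorem mem_V0 {b : V} : b ∈ V0 ↔ del b = 0 := LinearMap.mem_ker

theorem e_mem_V0 {l : List ℕ} (h : Ad l) : e l ∈ V0 := by
  rw [mem_V0]
  rcases l with _ | ⟨_ | a, l⟩
  · simp
  · exact absurd (h 0 (by simp)) (by omega)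
  · simp

theorem st_mem_V0 {a b : V} (ha : a ∈ V0) (hb : b ∈ V0) : st a b ∈ V0 := by
  rw [mem_V0] at *
  rw [del_st, ha, hb]
  simp

theorem sh_mem_V0 {a b : V} (ha : a ∈ V0) (hb : b ∈ V0) : sh a b ∈ V0 := by
  rw [mem_V0] at *
  rw [del_sh, ha, hb]
  simp

theorem del_coef (x : V) (l : List ℕ) : del x l = x (0 :: l) := by
  induction x using vind with
  | h0 => simp
  | hadd a a' ha ha' => simp only [map_add, Finsupp.add_apply, ha, ha']
  | hs r u =>
    rw [map_smul, Finsupp.smul_apply, Finsupp.smul_apply]
    congr 1
    rcases u with _ | ⟨_ | a, u⟩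
    · rw [del_nil]
      simp [e]
    · rw [del_zero]
      simp [e, Finsupp.single_apply]
    · rw [del_succ]
      simp [e]

/-- an element of `ℌ⁰` is a combination of words of `ℌ⁰` -/
theorem V0_ind {p : V → Prop} (h0 : p 0) (hadd : ∀ a b, p a → p b → p (a + b))
    (hs : ∀ (r : ℚ) l, Ad l → p (r • e l)) (v : V) (hv : v ∈ V0) : p v := by
  have h1 : ∀ l ∈ v.support, Ad l := by
    intro l hl
    rcases l with _ | ⟨_ | a, l⟩
    · intro a ha; simp at ha
    · exfalso
      have := del_coef v l
      rw [mem_V0.1 hv] at this
      exact (Finsupp.mem_support_iff.1 hl) this.symm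
    · intro b hb
      simp only [List.head?_cons, Option.mem_def, Option.some.injEq] at hb
      omega
  have h2 : v = ∑ l ∈ v.support, v l • e l := by
    conv_lhs => rw [← Finsupp.sum_single v]
    unfold Finsupp.sum
    exact Finset.sum_congr rfl fun l _ => by simp [e]
  rw [h2]
  exact Finset.sum_induction _ p hadd h0 fun l hl => hs _ _ (h1 l hl)

end MP154526.Lin.T2
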