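import Pool.Agent.Lib.MP_154526_nt.Lin.T2.Base

/-!
# T2: definitions and exact statements of the submodules

Paper proof: `/team-store/MP_154526_nt_TZ2_h45.md` (sections 2, 3, 4; the word identity in the
shorter form of helper48).
-/

set_option autoImplicit false

namespace MP154526.Lin.T2

open Finset MP154526.Top MP154526.Top.Pass2

/-- `∑_{a = u v} F u v` (deconcatenation) -/
def dsum {M : Type} [AddCommMonoid M] : (List ℕ → List ℕ → M) → List ℕ → M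
  | F, [] => F [] []
  | F, a :: l => F [] (a :: l) + dsum (fun u v => F (a :: u) v) l

/-- auxiliary: `∑_{l = p q} G p * S q` -/
noncomputable def Phi : List ℕ → (List ℕ → V) → V
  | [], G => G []
  | b :: l, G => - st (G []) (Phi l fun p => e (b :: p)) + Phi l fun p => G (b :: p)

/-- the antipode on words -/
noncomputable def S : List ℕ → V
  | [] => e []
  | b :: l => - Phi l fun p => e (b :: p)

/-- the antipode as a linear map -/
noncomputable def SL : V →ₗ[ℚ] V := lin1 S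

/-- `S v'` if `v = v' y`, otherwise `0` -/
noncomputable def Sr (v : List ℕ) : V := if v.getLast? = some 0 then S v.dropLast else 0

/-- a word containing some `z_k`, `k ≥ 2` -/
def NP (l : List ℕ) : Prop := ∃ a ∈ l, a ≠ 0

/-- `ℓ_X (a) = ∑_{a = u v} u * X (S v)` -/
noncomputable def ell (X : V →ₗ[ℚ] V) : V →ₗ[ℚ] V :=
  lin1 fun a => dsum (fun u v => st (e u) (X (S v))) a

/-- `a ↦ a y` -/
noncomputable def ry : V →ₗ[ℚ] V := lin1 fun a => e (a ++ [0])

/-- `X ↦ X (· * y)` -/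
noncomputable def sty : V →ₗ[ℚ] V := st (e [0])

/-- the remainder `E(a) = ℓ_C (y ⧢ a - a y) + ∑ u * C (S v * y) - y * ℓ_C (a) + ½ ℓ_{CC} (a)` -/
noncomputable def Er : V →ₗ[ℚ] V :=
  ell C ∘ₗ (C - ry) + ell (C ∘ₗ sty) - sty ∘ₗ ell C + (1 / 2 : ℚ) • ell (C ∘ₗ C)

/-- `X_a = ∑_{a = u v} (u * Z (S v) + S v * Z u)` -/
noncomputable def Xa (a : List ℕ) : V :=
  dsum (fun u v => st (e u) (Z (S v)) + st (S v) (Z (e u))) a

/-- ID, the exact word identity -/
def SpecId : Prop :=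
  ∀ a : List ℕ, a ≠ [] →
    Xa a = dsum (fun u v => st (C (e u)) (C (S v))) a - (Er (e a) + Er (S a))

/-! ### Hopf algebra -/

/-- S1 -/
def SpecS1 : Prop :=
  ∀ a : List ℕ, dsum (fun u v => st (e u) (S v)) a = if a = [] then e [] else 0

/-- S2 -/
def SpecS2 : Prop :=
  ∀ a : List ℕ, dsum (fun u v => st (S u) (e v)) a = if a = [] then e [] else 0

/-- DM: the deconcatenation is multiplicative for the stuffle -/
def SpecDM : Prop :=
  ∀ (M : Type) [AddCommMonoid M] (G : List ℕ → List ℕ → M) (u v : List ℕ),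
    stf (fun l => dsum G l) u v =
      dsum (fun u1 u2 => dsum (fun v1 v2 => stf (fun p => stf (fun q => G p q) u2 v2) u1 v1) v) u

/-- CO: coassociativity -/
def SpecCO : Prop :=
  ∀ (M : Type) [AddCommMonoid M] (G : List ℕ → List ℕ → List ℕ → M) (a : List ℕ),
    dsum (fun u v => dsum (fun p q => G p q v) u) a = dsum (fun u v => dsum (fun p q => G u p q) v) a

/-- DS: `∂ S v = - S (∂' v)` -/
def SpecDS : Prop := ∀ v : List ℕ, del (S v) = - Sr v

/-- DV: the sums with derivatives vanish for nonpure words -/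
def SpecDV : Prop :=
  ∀ (i k : ℕ) (a : List ℕ), NP a →
    dsum (fun u v => st ((del ^ i) (e u)) ((del ^ k) (S v))) a = 0

/-- NPS: nonpure words are stable -/
structure SpecNP : Prop where
  /-- `S` -/
  s : ∀ a, NP a → S a ∈ Submodule.span ℚ {x | ∃ l, NP l ∧ x = e l}
  /-- `C` -/
  c : ∀ a, NP a → C (e a) ∈ Submodule.span ℚ {x | ∃ l, NP l ∧ x = e l}

/-- TRI -/
def SpecTri' : Prop :=
  ∀ (M : Type) [AddCommGroup M] [Module ℚ M] (L : V →ₗ[ℚ] M),
    (∀ (i : ℕ) (b : V), b ∈ V0 → L (st (e (List.replicate i 0)) b) = 0) → L = 0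

/-- NEWT: Newton's identity `y * y^j = (j+1) y^{j+1} + ∑_{k=1}^j (-1)^{k-1} z_{k+1} * y^{j-k}` -/
def SpecNewt : Prop :=
  ∀ j : ℕ, st (e [0]) (e (List.replicate j 0)) = ((j : ℚ) + 1) • e (List.replicate (j + 1) 0) +
    ∑ k ∈ range j, (-1 : ℚ) ^ k • st (e [k + 1]) (e (List.replicate (j - (k + 1)) 0))

/-! ### the functional -/

/-- a functional killing the relations -/
structure FR (f : V →ₗ[ℚ] ℚ) : Prop where
  r1 : ∀ w : V, f (C w) = 0
  r2 : ∀ w b : V, b ∈ V0 → f (st w b) = f (sh w b)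

/-- the coefficients of `Y = y - z_2 ∂ + z_3 ∂² - ⋯` -/
noncomputable def cc : ℕ → V
  | 0 => e [0]
  | k + 1 => (-1 : ℚ) ^ (k + 1) • e [k + 1]

/-- the operator `Y`, truncated -/
noncomputable def Yo (K : ℕ) : V →ₗ[ℚ] V := ∑ k ∈ range K, st (cc k) ∘ₗ (del ^ k)

/-- `J = {X : f(d * ∂^k X) = 0}` -/
noncomputable def J (f : V →ₗ[ℚ] ℚ) : Submodule ℚ V where
  carrier := {X | ∀ (k : ℕ) (d : V), d ∈ V0 → f (st d ((del ^ k) X)) = 0}
  zero_mem' := by
    intro k d _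
    simp
  add_mem' := by
    intro a b ha hb k d hd
    rw [map_add, map_add, map_add, ha k d hd, hb k d hd, add_zero]
  smul_mem' := by
    intro r a ha k d hd
    rw [map_smul, map_smul, map_smul, ha k d hd, smul_zero]

/-- F1 (from TRI, NEWT): `f (Y Q) = 0` -/
def SpecF1 : Prop :=
  ∀ f : V →ₗ[ℚ] ℚ, FR f → ∀ (K : ℕ) (Q : V), (del ^ K) Q = 0 → f (Yo K Q) = 0

/-- JC (from F1): the calculus modulo `J` -/
structure SpecJ : Prop where
  /-- `f(J) = 0` -/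
  f0 : ∀ f : V →ₗ[ℚ] ℚ, FR f → ∀ X ∈ J f, f X = 0
  /-- `J` is an ideal of `(ℌ¹, *)` -/
  ideal : ∀ f : V →ₗ[ℚ] ℚ, FR f → ∀ w X : V, X ∈ J f → st w X ∈ J f
  /-- `y ⧢ J ⊆ J` -/
  c : ∀ f : V →ₗ[ℚ] ℚ, FR f → ∀ X ∈ J f, C X ∈ J f
  /-- `y ⧢ v = Y v` modulo `J` -/
  m : ∀ f : V →ₗ[ℚ] ℚ, FR f → ∀ (K : ℕ) (v : V), (del ^ K) v = 0 → C v - Yo (K + 1) v ∈ J f

/-- AS (from ID, JC, DV, NP): `X_a ∈ J` for nonpure words -/
def SpecAS : Prop := ∀ f : V →ₗ[ℚ] ℚ, FR f → ∀ a : List ℕ, NP a → Xa a ∈ J f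

/-- the bilinear form `L(w, b) = f(w * (z_2 ⧢ b - z_2 * b))` -/
noncomputable def Lf (f : V →ₗ[ℚ] ℚ) : V →ₗ[ℚ] V →ₗ[ℚ] ℚ :=
  LinearMap.mk₂ ℚ (fun w b => f (st w (Z b - st (e [1]) b)))
    (by intro a b c; rw [map_add, LinearMap.add_apply, map_add])
    (by intro r a b; rw [map_smul, LinearMap.smul_apply, map_smul])
    (by
      intro a b c
      rw [← map_add, ← map_add]
      congr 2
      simp only [map_add]
      abel)
    (by
      intro r a b
      rw [← map_smul, ← map_smul]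
      congr 2
      simp only [map_smul, smul_sub])

/-- DAG (from AS, S1): the relation (†) -/
def SpecDag : Prop :=
  ∀ f : V →ₗ[ℚ] ℚ, FR f → ∀ (x : V) (a : List ℕ), x ∈ V0 → Ad a → a ≠ [] →
    dsum (fun u v => Lf f (st x (S v)) (e u) + Lf f (S v) (st x (e u))) a = 0

/-- LY (from F1): `L(y * w, b) = -∑_{k ≥ 1} L(c_k * ∂^k w, b)` -/
def SpecLY : Prop :=
  ∀ f : V →ₗ[ℚ] ℚ, FR f → ∀ (K : ℕ) (w b : V), b ∈ V0 → (del ^ K) w = 0 →
    Lf f (st (e [0]) w) b = - ∑ k ∈ range K, Lf f (st (cc (k + 1)) ((del ^ (k + 1)) w)) b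

/-- FIN (from DAG, LY, S1, S2, DM, CO, DS): depth induction, abstract form -/
def SpecFin : Prop :=
  ∀ L : V →ₗ[ℚ] V →ₗ[ℚ] ℚ,
    (∀ w : V, L w (e []) = 0) →
    (∀ (x : V) (a : List ℕ), x ∈ V0 → Ad a → a ≠ [] →
      dsum (fun u v => L (st x (S v)) (e u) + L (S v) (st x (e u))) a = 0) →
    (∀ (K : ℕ) (w b : V), b ∈ V0 → (del ^ K) w = 0 →
      L (st (e [0]) w) b = - ∑ k ∈ range K, L (st (cc (k + 1)) ((del ^ (k + 1)) w)) b) →
    ∀ w b : V, b ∈ V0 → L w b = 0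

/-- LINK: from `RR` to `FR` -/
def SpecLink : Prop :=
  ∀ (n : ℕ) (ψ : List Bool → ℚ), RR n ψ →
    FR (lin1 fun l => if wt l = n then ψ (bw l) else 0)

end MP154526.Lin.T2
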